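import Pool.Agent.TH128.KS.Simple

/-!
# Products of two unit vectors
-/

set_option autoImplicit false
set_option linter.unusedSectionVars false

open Module Matrix

namespace Pool.Agent.TH128.KS

open Pool.Agent.TH164.Spin Pool.Agent.TH119.MX

variable {N B : Type} [Fintype N] [DecidableEq N] [Nonempty N] [Fintype B] [DecidableEq B]
  {n : ℕ}
variable {Γ : Fin n → Matrix N N ℂ} {H : Set (Matrix (N ⊕ B) (N ⊕ B) ℂ)}

theorem bq_symm (t s : Matrix N N ℂ) : bq t s = bq s t := by
  rw [bq_apply, bq_apply, Matrix.trace_mul_comm]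

theorem pres_unip (h : Cl Γ)
    (hst : ∀ d, ∀ X ∈ La Γ, Stab H d (fromBlocks X 0 0 (0 : Matrix B B ℂ)))
    {u v : Matrix N N ℂ} (hu : u ∈ Ts Γ) (hv : v ∈ Ts Γ) (hu1 : bq u u = 1) (hv1 : bq v v = 1)
    (huv : bq u v = 1) : Pres H (fromBlocks (u * v) 0 0 (1 : Matrix B B ℂ)) := by
  have huu : u * u = 1 := by rw [h.sq_vec hu, hu1, one_smul]
  have hvv : v * v = 1 := by rw [h.sq_vec hv, hv1, one_smul]
  have hr : v * u = (2 : ℂ) • (1 : Matrix N N ℂ) - u * v := by
    have h1 := h.relT hu hv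
    rw [huv, mul_one] at h1
    rw [← h1, add_sub_cancel_left]
  have hsq : u * v * (u * v) = (2 : ℂ) • (u * v) - 1 := by
    calc u * v * (u * v) = u * (v * u) * v := by simp only [Matrix.mul_assoc]
      _ = (2 : ℂ) • (u * v) - (u * u) * (v * v) := by
        rw [hr, Matrix.mul_sub, Matrix.sub_mul, Matrix.mul_smul, Matrix.mul_one, Matrix.smul_mul]
        simp only [Matrix.mul_assoc]
      _ = _ := by rw [huu, hvv, Matrix.one_mul]
  have hN : (u * v - 1) * (u * v - 1) = 0 := by
    rw [Matrix.sub_mul, Matrix.mul_sub, Matrix.mul_sub, hsq, Matrix.mul_one, Matrix.one_mul,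
      Matrix.one_mul]
    module
  have hLa : u * v - 1 ∈ La Γ := by
    have h1 : u * v - 1 = (1 / 2 : ℂ) • (u * v - v * u) := by
      rw [hr]
      module
    rw [h1]
    exact Submodule.smul_mem _ _ (Submodule.subset_span ⟨u, hu, v, hv, rfl⟩)
  have h1 : fromBlocks (u * v - 1) 0 0 (0 : Matrix B B ℂ) *
      fromBlocks (u * v - 1) 0 0 (0 : Matrix B B ℂ) =
      (0 : ℂ) • fromBlocks (u * v - 1) 0 0 (0 : Matrix B B ℂ) := by
    rw [zero_smul, fromBlocks_multiply, hN]
    simp
  have h2 := pres_of_stab h1 (fun d => hst d _ hLa) 1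
  have h3 : (1 : Matrix (N ⊕ B) (N ⊕ B) ℂ) + (1 : ℂ) •
      fromBlocks (u * v - 1) 0 0 (0 : Matrix B B ℂ) = fromBlocks (u * v) 0 0 1 := by
    rw [one_smul, ← fromBlocks_one, fromBlocks_add, add_sub_cancel, add_zero, add_zero, add_zero]
  rwa [h3] at h2

/-- There are vectors of nonzero length perpendicular to few given vectors. -/
theorem exists_orth (h : Cl Γ) {m : ℕ} (f : Fin m → Matrix N N ℂ) (hf : ∀ i, f i ∈ Ts Γ)
    (ho : ∀ i j, i ≠ j → bq (f i) (f j) = 0) (hn : ∀ i, bq (f i) (f i) ≠ 0) (hm : m < n) :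
    ∃ z ∈ Ts Γ, (∀ i, bq z (f i) = 0) ∧ bq z z ≠ 0 := by
  by_contra hcon
  push Not at hcon
  obtain ⟨pj, hpj⟩ : ∃ pj : Matrix N N ℂ → Matrix N N ℂ, ∀ t, pj t =
      t - ∑ i, (bq t (f i) / bq (f i) (f i)) • f i := ⟨_, fun _ => rfl⟩
  have h1 : ∀ t ∈ Ts Γ, pj t ∈ Ts Γ := by
    intro t ht
    rw [hpj]
    exact Submodule.sub_mem _ ht (Submodule.sum_mem _ fun i _ => Submodule.smul_mem _ _ (hf i))
  have h2 : ∀ t j, bq (pj t) (f j) = 0 := by
    intro t j
    rw [hpj, map_sub, LinearMap.sub_apply, map_sum, LinearMap.sum_apply, Finset.sum_eq_single j]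
    · rw [map_smul, LinearMap.smul_apply, smul_eq_mul, div_mul_cancel₀ _ (hn j), sub_self]
    · intro i _ hij
      rw [map_smul, LinearMap.smul_apply, ho i j hij, smul_zero]
    · intro hj
      exact absurd (Finset.mem_univ _) hj
  have h3 : ∀ t ∈ Ts Γ, ∀ s ∈ Ts Γ, bq (pj t) (pj s) = 0 := by
    intro t ht s hs
    have e1 := hcon _ (h1 t ht) (h2 t)
    have e2 := hcon _ (h1 s hs) (h2 s)
    have e3 := hcon _ (Submodule.add_mem _ (h1 t ht) (h1 s hs)) (fun i => by
      rw [map_add, LinearMap.add_apply, h2, h2, add_zero])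
    simp only [map_add, LinearMap.add_apply] at e3
    rw [e1, e2, bq_symm (pj s) (pj t), zero_add, add_zero] at e3
    have e4 : (2 : ℂ) * bq (pj t) (pj s) = 0 := by linear_combination e3
    exact (mul_eq_zero.1 e4).resolve_left two_ne_zero
  have h4 : ∀ t ∈ Ts Γ, pj t = 0 := by
    intro t ht
    refine h.nd (h1 t ht) fun s hs => ?_
    have e1 : s = pj s + ∑ i, (bq s (f i) / bq (f i) (f i)) • f i := by
      rw [hpj, sub_add_cancel]
    rw [e1, map_add, h3 t ht s hs, zero_add, map_sum]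
    refine Finset.sum_eq_zero fun i _ => ?_
    rw [map_smul, h2, smul_zero]
  have h5 : Ts Γ ≤ Submodule.span ℂ (Set.range f) := by
    intro t ht
    have e1 := h4 t ht
    rw [hpj, sub_eq_zero] at e1
    rw [e1]
    exact Submodule.sum_mem _ fun i _ => Submodule.smul_mem _ _ (Submodule.subset_span ⟨i, rfl⟩)
  have h6 := Submodule.finrank_mono h5
  have h7 := finrank_range_le_card (R := ℂ) f
  rw [h.finrank_Ts] at h6
  rw [Fintype.card_fin] at h7
  have h8 : Set.finrank ℂ (Set.range f) = finrank ℂ (Submodule.span ℂ (Set.range f)) := rfl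
  omega

theorem step (h : Cl Γ) {u v w : Matrix N N ℂ} (hw : w ∈ Ts Γ) (hw1 : bq w w = 1)
    (h1 : Pres H (fromBlocks (u * w) 0 0 (1 : Matrix B B ℂ)))
    (h2 : Pres H (fromBlocks (w * v) 0 0 (1 : Matrix B B ℂ))) :
    Pres H (fromBlocks (u * v) 0 0 (1 : Matrix B B ℂ)) := by
  have h3 := h1.mul h2
  rw [fromBlocks_multiply] at h3
  have h4 : u * w * (w * v) = u * v := by
    calc u * w * (w * v) = u * (w * w) * v := by simp only [Matrix.mul_assoc]
      _ = u * v := by rw [h.sq_vec hw, hw1, one_smul, Matrix.mul_one]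
  simpa [h4] using h3

theorem pres_ne (h : Cl Γ) (hn : 3 ≤ n)
    (hst : ∀ d, ∀ X ∈ La Γ, Stab H d (fromBlocks X 0 0 (0 : Matrix B B ℂ)))
    {u v : Matrix N N ℂ} (hu : u ∈ Ts Γ) (hv : v ∈ Ts Γ) (hu1 : bq u u = 1) (hv1 : bq v v = 1)
    (huv : bq u v ≠ -1) : Pres H (fromBlocks (u * v) 0 0 (1 : Matrix B B ℂ)) := by
  obtain ⟨c, hc⟩ : ∃ c, bq u v = c := ⟨_, rfl⟩
  have hvu : bq v u = c := by rw [bq_symm, hc]
  rw [hc] at huv
  have hc1 : 1 + c ≠ 0 := fun e => huv (by linear_combination e)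
  by_cases hc2 : c = 1
  · rw [hc2] at hc
    exact pres_unip h hst hu hv hu1 hv1 hc
  have hc3 : 1 - c ≠ 0 := fun e => hc2 (by linear_combination -e)
  -- a perpendicular vector
  obtain ⟨z, hz, hz0, hzz⟩ := exists_orth h ![u, v - c • u] (by
      intro i
      fin_cases i
      · exact hu
      · exact Submodule.sub_mem _ hv (Submodule.smul_mem _ _ hu)) (by
      intro i j hij
      fin_cases i <;> fin_cases j
      · exact absurd rfl hij
      · change bq u (v - c • u) = 0
        rw [map_sub, map_smul, hc, hu1, smul_eq_mul, mul_one, sub_self]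
      · change bq (v - c • u) u = 0
        rw [map_sub, map_smul, LinearMap.sub_apply, LinearMap.smul_apply, hvu, hu1, smul_eq_mul,
          mul_one, sub_self]
      · exact absurd rfl hij) (by
      intro i
      fin_cases i
      · change bq u u ≠ 0
        rw [hu1]
        exact one_ne_zero
      · change bq (v - c • u) (v - c • u) ≠ 0
        simp only [map_sub, map_smul, LinearMap.sub_apply, LinearMap.smul_apply, hvu, hu1, hv1,
          hc, smul_eq_mul]
        intro e
        refine mul_ne_zero hc1 hc3 ?_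
        linear_combination e) (by omega)
  have hzu : bq z u = 0 := hz0 0
  have hzv : bq z v = 0 := by
    have h1 : bq z (v - c • u) = 0 := hz0 1
    rw [map_sub, map_smul, hzu, smul_zero, sub_zero] at h1
    exact h1
  have huz : bq u z = 0 := by rw [bq_symm, hzu]
  have hvz : bq v z = 0 := by rw [bq_symm, hzv]
  obtain ⟨g, hg⟩ := IsAlgClosed.exists_pow_nat_eq (-((1 - c) / ((1 + c) * bq z z))) two_pos
  obtain ⟨w, hw⟩ : ∃ w, w = (1 + c)⁻¹ • (u + v) + g • z := ⟨_, rfl⟩
  have hwT : w ∈ Ts Γ := by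
    rw [hw]
    exact Submodule.add_mem _ (Submodule.smul_mem _ _ (Submodule.add_mem _ hu hv))
      (Submodule.smul_mem _ _ hz)
  have hg2 : g ^ 2 * bq z z = -((1 - c) / (1 + c)) := by
    rw [hg]
    field_simp
  have hww : bq w w = 1 := by
    rw [hw]
    simp only [map_add, map_smul, LinearMap.add_apply, LinearMap.smul_apply, hu1, hv1, hc, hvu,
      hzu, hzv, huz, hvz, smul_eq_mul, mul_zero, add_zero, zero_add]
    have h1 : g * (g * bq z z) = -((1 - c) / (1 + c)) := by
      rw [← hg2]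
      ring
    rw [h1]
    field_simp
    ring
  have huw : bq u w = 1 := by
    rw [hw]
    simp only [map_add, map_smul, hu1, hc, huz, smul_eq_mul, mul_zero, add_zero]
    exact inv_mul_cancel₀ hc1
  have hwv : bq w v = 1 := by
    rw [hw]
    simp only [map_add, map_smul, LinearMap.add_apply, LinearMap.smul_apply, hv1, hc, hzv,
      smul_eq_mul, mul_zero, add_zero]
    rw [add_comm c 1]
    exact inv_mul_cancel₀ hc1
  exact step h hwT hww (pres_unip h hst hu hwT hu1 hww huw) (pres_unip h hst hwT hv hww hv1 hwv)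

/-- **The products of two unit vectors.** -/
theorem pres_unit (h : Cl Γ) (hn : 3 ≤ n)
    (hst : ∀ d, ∀ X ∈ La Γ, Stab H d (fromBlocks X 0 0 (0 : Matrix B B ℂ)))
    {u v : Matrix N N ℂ} (hu : u ∈ Ts Γ) (hv : v ∈ Ts Γ) (hu1 : bq u u = 1) (hv1 : bq v v = 1) :
    Pres H (fromBlocks (u * v) 0 0 (1 : Matrix B B ℂ)) := by
  obtain ⟨z, hz, hz0, hzz⟩ := exists_orth h ![u] (by
      intro i
      fin_cases i
      exact hu) (by
      intro i j hij
      fin_cases i
      fin_cases j
      exact absurd rfl hij) (by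
      intro i
      fin_cases i
      change bq u u ≠ 0
      rw [hu1]
      exact one_ne_zero) (by omega)
  have hzu : bq z u = 0 := hz0 0
  obtain ⟨r, hr⟩ := IsAlgClosed.exists_pow_nat_eq (bq z z) two_pos
  have hr0 : r ≠ 0 := by
    rintro rfl
    apply hzz
    rw [← hr]
    norm_num
  have key : ∀ s : ℂ, s ^ 2 * bq z z = 1 → bq (s • z) v ≠ -1 →
      Pres H (fromBlocks (u * v) 0 0 (1 : Matrix B B ℂ)) := by
    intro s hs hsv
    have hwT : s • z ∈ Ts Γ := Submodule.smul_mem _ _ hz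
    have hww : bq (s • z) (s • z) = 1 := by
      rw [map_smul, map_smul, LinearMap.smul_apply, smul_eq_mul, smul_eq_mul, ← hs]
      ring
    have huw : bq u (s • z) ≠ -1 := by
      rw [map_smul, bq_symm, hzu, smul_zero]
      norm_num
    exact step h hwT hww (pres_ne h hn hst hu hwT hu1 hww huw)
      (pres_ne h hn hst hwT hv hww hv1 hsv)
  by_cases h1 : bq (r⁻¹ • z) v = -1
  · refine key (-r⁻¹) ?_ ?_
    · rw [neg_sq, inv_pow, hr]
      exact inv_mul_cancel₀ hzz
    · rw [neg_smul, map_neg, LinearMap.neg_apply, h1]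
      norm_num
  · refine key r⁻¹ ?_ h1
    rw [inv_pow, hr]
    exact inv_mul_cancel₀ hzz

end Pool.Agent.TH128.KS
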