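import Pool.Agent.TH128.KS.Gour
import Pool.Agent.TH128.KS.Unit

/-!
# Algebraic groups which contain the periods of a Kuga-Satake motive and of small polarized pieces
-/

set_option autoImplicit false
set_option linter.unusedSectionVars false

open Module Matrix

namespace Pool.Agent.TH128.KS

open Pool.Agent.TH164.Spin Pool.Agent.TH119.MX Pool.Agent.TH119.DR Pool.Agent.TH164.A1

variable {N B D : Type} [Fintype N] [DecidableEq N] [Nonempty N] [Fintype B] [DecidableEq B]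
  {n : ℕ}
variable {Γ : Fin n → Matrix N N ℂ} {piece : B → D} {Φ : Matrix B B ℂ}

/-- The scalars on the pieces. -/
def dg (piece : B → D) (c : D → ℂ) : Matrix B B ℂ := diagonal fun a => c (piece a)

theorem blk_comm {y : Matrix B B ℂ} (hy : Blk piece y) (c : D → ℂ) :
    dg piece c * y = y * dg piece c := by
  ext a b
  unfold dg
  rw [diagonal_mul, mul_diagonal]
  by_cases h : piece a = piece b
  · rw [h, mul_comm]
  · rw [hy a b h, mul_zero, zero_mul]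

theorem blk_of_comm {y : Matrix B B ℂ} (h : ∀ c : D → ℂ, dg piece c * y = y * dg piece c) :
    Blk piece y := by
  classical
  intro a b hab
  have h1 := congrFun (congrFun (h fun k => if k = piece a then 1 else 0) a) b
  unfold dg at h1
  rw [diagonal_mul, mul_diagonal] at h1
  have h2 : (if piece a = piece a then (1 : ℂ) else 0) * y a b =
      y a b * (if piece b = piece a then (1 : ℂ) else 0) := h1
  rw [if_pos rfl, if_neg (fun e => hab e.symm), one_mul, mul_zero] at h2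
  exact h2

theorem Blk.inv {y y' : Matrix B B ℂ} (hy : Blk piece y) (h1 : y * y' = 1) (h2 : y' * y = 1) :
    Blk piece y' := by
  refine blk_of_comm fun c => ?_
  calc dg piece c * y' = y' * y * (dg piece c * y') := by rw [h2, Matrix.one_mul]
    _ = y' * (y * dg piece c) * y' := by simp only [Matrix.mul_assoc]
    _ = y' * dg piece c * (y * y') := by
      rw [← blk_comm hy]
      simp only [Matrix.mul_assoc]
    _ = _ := by rw [h1, Matrix.mul_one]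

theorem Blk.transpose {y : Matrix B B ℂ} (hy : Blk piece y) : Blk piece yᵀ := by
  intro a b hab
  rw [Matrix.transpose_apply]
  exact hy b a fun e => hab e.symm

theorem dg_comm (c c' : D → ℂ) : dg piece c * dg piece c' = dg piece c' * dg piece c := by
  unfold dg
  rw [diagonal_mul_diagonal, diagonal_mul_diagonal]
  congr 1
  funext a
  exact mul_comm _ _

/-- The similitudes of the form. -/
def Go (piece : B → D) (Φ y : Matrix B B ℂ) : Prop :=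
  ∃ c : D → ℂ, yᵀ * Φ + Φ * y = dg piece c * Φ

theorem Go.br {y z : Matrix B B ℂ} (hy : Blk piece y) (hz : Blk piece z) (h1 : Go piece Φ y)
    (h2 : Go piece Φ z) : (y * z - z * y)ᵀ * Φ + Φ * (y * z - z * y) = 0 := by
  obtain ⟨c, hc⟩ := h1
  obtain ⟨d, hd⟩ := h2
  have e1 : yᵀ * Φ = dg piece c * Φ - Φ * y := eq_sub_of_add_eq hc
  have e2 : zᵀ * Φ = dg piece d * Φ - Φ * z := eq_sub_of_add_eq hd
  have e3 : zᵀ * (yᵀ * Φ) = dg piece c * (dg piece d * Φ) - dg piece c * (Φ * z) -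
      dg piece d * (Φ * y) + Φ * z * y := by
    rw [e1, Matrix.mul_sub, ← Matrix.mul_assoc, ← blk_comm hz.transpose, Matrix.mul_assoc, e2,
      ← Matrix.mul_assoc zᵀ, e2, Matrix.sub_mul, Matrix.mul_sub]
    simp only [Matrix.mul_assoc]
    abel
  have e4 : yᵀ * (zᵀ * Φ) = dg piece d * (dg piece c * Φ) - dg piece d * (Φ * y) -
      dg piece c * (Φ * z) + Φ * y * z := by
    rw [e2, Matrix.mul_sub, ← Matrix.mul_assoc, ← blk_comm hy.transpose, Matrix.mul_assoc, e1,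
      ← Matrix.mul_assoc yᵀ, e1, Matrix.sub_mul, Matrix.mul_sub]
    simp only [Matrix.mul_assoc]
    abel
  have e5 : dg piece c * (dg piece d * Φ) = dg piece d * (dg piece c * Φ) := by
    rw [← Matrix.mul_assoc, dg_comm, Matrix.mul_assoc]
  rw [Matrix.transpose_sub, Matrix.transpose_mul, Matrix.transpose_mul, Matrix.sub_mul,
    Matrix.mul_assoc, Matrix.mul_assoc, e3, e4, e5, Matrix.mul_sub, ← Matrix.mul_assoc Φ,
    ← Matrix.mul_assoc Φ]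
  abel

theorem map_entries {α β : Type} (δ : Derivation ℚ ℂ ℂ) {M : Matrix α β ℂ}
    (hM : ∀ a b, IsAlgebraic ℚ (M a b)) : M.map δ = 0 := by
  ext a b
  rw [Matrix.map_apply, deriv_alg δ (hM a b), Matrix.zero_apply]

theorem dg_map (δ : Derivation ℚ ℂ ℂ) (c : D → ℂ) :
    (dg piece c).map δ = dg piece fun k => δ (c k) := by
  ext a b
  unfold dg
  rw [Matrix.map_apply, diagonal_apply, diagonal_apply]
  split_ifs
  · rfl
  · exact map_zero δ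

theorem map_add_der {α β : Type} (δ : Derivation ℚ ℂ ℂ) (X Y : Matrix α β ℂ) :
    (X + Y).map δ = X.map δ + Y.map δ := by
  ext i j
  exact map_add δ _ _

theorem Go.der (hΦ : ∀ a b, IsAlgebraic ℚ (Φ a b)) (δ : Derivation ℚ ℂ ℂ) {y : Matrix B B ℂ}
    (h : Go piece Φ y) : Go piece Φ (y.map δ) := by
  obtain ⟨c, hc⟩ := h
  refine ⟨fun k => δ (c k), ?_⟩
  have h1 := congrArg (fun M : Matrix B B ℂ => M.map δ) hc
  simp only [map_add_der, map_mul_der, map_entries δ hΦ, Matrix.mul_zero, Matrix.zero_mul,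
    add_zero, zero_add, dg_map] at h1
  exact h1

theorem Go.add {y z : Matrix B B ℂ} (h1 : Go piece Φ y) (h2 : Go piece Φ z) :
    Go piece Φ (y + z) := by
  obtain ⟨c, hc⟩ := h1
  obtain ⟨d, hd⟩ := h2
  refine ⟨fun k => c k + d k, ?_⟩
  have h3 : dg piece (fun k => c k + d k) = dg piece c + dg piece d := by
    unfold dg
    rw [diagonal_add]
  rw [h3, Matrix.add_mul, ← hc, ← hd, Matrix.transpose_add, Matrix.add_mul, Matrix.mul_add]
  abel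

theorem Go.smul {y : Matrix B B ℂ} (r : ℂ) (h : Go piece Φ y) : Go piece Φ (r • y) := by
  obtain ⟨c, hc⟩ := h
  refine ⟨fun k => r * c k, ?_⟩
  have h3 : dg piece (fun k => r * c k) = r • dg piece c := by
    unfold dg
    rw [← diagonal_smul]
    rfl
  rw [h3, Matrix.smul_mul, ← hc, Matrix.transpose_smul, Matrix.smul_mul, Matrix.mul_smul,
    smul_add]

/-- The logarithmic derivative is a similitude. -/
theorem Go.log {Q Q' Ψ : Matrix B B ℂ} {lam : D → ℂ} (hlam : ∀ k, lam k ≠ 0)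
    (hQ : Blk piece Q) (h1 : Q * Q' = 1) (h2 : Q' * Q = 1) (hΦ : ∀ a b, IsAlgebraic ℚ (Φ a b))
    (hΨ : ∀ a b, IsAlgebraic ℚ (Ψ a b))
    (hper : ∀ a b, (Qᵀ * Φ * Q) a b = lam (piece a) * Ψ a b) (δ : Derivation ℚ ℂ ℂ) :
    Go piece Φ (Q.map δ * Q') := by
  refine ⟨fun k => δ (lam k) / lam k, ?_⟩
  obtain ⟨R, hR⟩ : ∃ R, R = dg piece (fun k => δ (lam k) / lam k) := ⟨_, rfl⟩
  rw [← hR]
  have e0 : Qᵀ * Φ * Q = dg piece lam * Ψ := by
    ext a b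
    unfold dg
    rw [hper, diagonal_mul]
  have e1 : (Qᵀ * Φ * Q).map δ = R * (Qᵀ * Φ * Q) := by
    rw [e0, map_mul_der, map_entries δ hΨ, Matrix.mul_zero, add_zero, dg_map, ← Matrix.mul_assoc,
      hR]
    congr 1
    unfold dg
    rw [diagonal_mul_diagonal]
    congr 1
    funext a
    rw [div_mul_cancel₀ _ (hlam _)]
  rw [map_mul_der, map_mul_der, map_entries δ hΦ, Matrix.mul_zero, add_zero] at e1
  have e2 : (Qᵀ).map δ = (Q.map δ)ᵀ := rfl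
  rw [e2] at e1
  have hQ' : Blk piece Q' := hQ.inv h1 h2
  have t1 : Q'ᵀ * Qᵀ = 1 := by rw [← Matrix.transpose_mul, h1, Matrix.transpose_one]
  have e3 := congrArg (fun M : Matrix B B ℂ => Q'ᵀ * M * Q') e1
  simp only [Matrix.mul_add, Matrix.add_mul] at e3
  rw [Matrix.transpose_mul]
  have f1 : Q'ᵀ * ((Q.map δ)ᵀ * Φ * Q) * Q' = Q'ᵀ * (Q.map δ)ᵀ * Φ := by
    calc Q'ᵀ * ((Q.map δ)ᵀ * Φ * Q) * Q' = Q'ᵀ * (Q.map δ)ᵀ * Φ * (Q * Q') := by
          simp only [Matrix.mul_assoc]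
      _ = _ := by rw [h1, Matrix.mul_one]
  have f2 : Q'ᵀ * (Qᵀ * Φ * Q.map δ) * Q' = Φ * (Q.map δ * Q') := by
    calc Q'ᵀ * (Qᵀ * Φ * Q.map δ) * Q' = (Q'ᵀ * Qᵀ) * Φ * (Q.map δ * Q') := by
          simp only [Matrix.mul_assoc]
      _ = _ := by rw [t1, Matrix.one_mul]
  have f3 : Q'ᵀ * (R * (Qᵀ * Φ * Q)) * Q' = R * Φ := by
    calc Q'ᵀ * (R * (Qᵀ * Φ * Q)) * Q' = (Q'ᵀ * R) * Qᵀ * Φ * (Q * Q') := by
          simp only [Matrix.mul_assoc]
      _ = R * (Q'ᵀ * Qᵀ) * Φ := by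
        rw [h1, Matrix.mul_one, hR, ← blk_comm hQ'.transpose]
        simp only [Matrix.mul_assoc]
      _ = _ := by rw [t1, Matrix.mul_one]
  rw [f1, f2, f3] at e3
  exact e3

/-- The Lie algebra of the group. -/
def L1 (Γ : Fin n → Matrix N N ℂ) (piece : B → D) (Φ : Matrix B B ℂ)
    (H : Set (Matrix (N ⊕ B) (N ⊕ B) ℂ)) (d : ℕ) :
    Submodule ℂ (Matrix N N ℂ × Matrix B B ℂ) where
  carrier := {p | (∀ t ∈ Ts Γ, p.1 * t - t * p.1 ∈ Ts Γ) ∧ Blk piece p.2 ∧ Go piece Φ p.2 ∧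
    Stab H d (fromBlocks p.1 0 0 p.2)}
  zero_mem' := by
    refine ⟨fun t _ => ?_, fun _ _ _ => rfl, ⟨0, ?_⟩, ?_⟩
    · change 0 * t - t * 0 ∈ Ts Γ
      rw [Matrix.zero_mul, Matrix.mul_zero, sub_zero]
      exact Submodule.zero_mem _
    · change (0 : Matrix B B ℂ)ᵀ * Φ + Φ * 0 = _
      rw [Matrix.transpose_zero, Matrix.zero_mul, Matrix.mul_zero, add_zero]
      have h3 : dg piece (0 : D → ℂ) = 0 := by
        unfold dg
        exact diagonal_zero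
      rw [h3, Matrix.zero_mul]
    · change Stab H d (fromBlocks 0 0 0 0)
      rw [fromBlocks_zero]
      exact Stab.zero
  add_mem' := by
    rintro p q ⟨h1, h2, h3, h4⟩ ⟨h5, h6, h7, h8⟩
    refine ⟨fun t ht => ?_, fun a b hab => ?_, h3.add h7, ?_⟩
    · change (p.1 + q.1) * t - t * (p.1 + q.1) ∈ Ts Γ
      rw [Matrix.add_mul, Matrix.mul_add, add_sub_add_comm]
      exact Submodule.add_mem _ (h1 t ht) (h5 t ht)
    · change p.2 a b + q.2 a b = 0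
      rw [h2 a b hab, h6 a b hab, add_zero]
    · have h9 := h4.add h8
      rw [fromBlocks_add, add_zero, add_zero] at h9
      exact h9
  smul_mem' := by
    rintro r p ⟨h1, h2, h3, h4⟩
    refine ⟨fun t ht => ?_, fun a b hab => ?_, h3.smul r, ?_⟩
    · change (r • p.1) * t - t * (r • p.1) ∈ Ts Γ
      rw [Matrix.smul_mul, Matrix.mul_smul, ← smul_sub]
      exact Submodule.smul_mem _ _ (h1 t ht)
    · change r * p.2 a b = 0
      rw [h2 a b hab, mul_zero]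
    · have h9 := h4.smul r
      rw [fromBlocks_smul, smul_zero, smul_zero] at h9
      exact h9

variable {H : Set (Matrix (N ⊕ B) (N ⊕ B) ℂ)}

theorem L1_der (hH : AlgGrp QA H) (hΓ : ∀ i a b, IsAlgebraic ℚ (Γ i a b))
    (hΦ : ∀ a b, IsAlgebraic ℚ (Φ a b)) (d : ℕ) (δ : Derivation ℚ ℂ ℂ)
    {x : Matrix N N ℂ} {y : Matrix B B ℂ} (hp : (x, y) ∈ L1 Γ piece Φ H d) :
    (x.map δ, y.map δ) ∈ L1 Γ piece Φ H d := by
  obtain ⟨h1, h2, h3, h4⟩ := hp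
  obtain ⟨p, hpe⟩ : ∃ p : Matrix N N ℂ × Matrix B B ℂ, p = (x, y) := ⟨_, rfl⟩
  have hx : x = p.1 := by rw [hpe]
  have hy : y = p.2 := by rw [hpe]
  rw [← hpe] at h1 h2 h3 h4
  rw [hx, hy]
  refine ⟨?_, fun a b hab => ?_, h3.der hΦ δ, ?_⟩
  · have key : ∀ i, p.1.map δ * Γ i - Γ i * p.1.map δ ∈ Ts Γ := by
      intro i
      have h5 := map_Ts hΓ δ (h1 _ (gam_mem i))
      have h6 : (p.1 * Γ i - Γ i * p.1).map δ = p.1.map δ * Γ i - Γ i * p.1.map δ := by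
        have h7 : (p.1 * Γ i - Γ i * p.1).map δ = (p.1 * Γ i).map δ - (Γ i * p.1).map δ := by
          ext a b
          exact map_sub δ _ _
        rw [h7, map_mul_der, map_mul_der, map_gam hΓ, Matrix.mul_zero, Matrix.zero_mul, add_zero,
          zero_add]
      rwa [h6] at h5
    intro t ht
    induction ht using Submodule.span_induction with
    | mem x hx =>
      obtain ⟨i, rfl⟩ := hx
      exact key i
    | zero =>
      rw [Matrix.zero_mul, Matrix.mul_zero, sub_zero]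
      exact Submodule.zero_mem _
    | add a b _ _ ha hb =>
      rw [Matrix.mul_add, Matrix.add_mul, add_sub_add_comm]
      exact Submodule.add_mem _ ha hb
    | smul c a _ ha =>
      rw [Matrix.mul_smul, Matrix.smul_mul, ← smul_sub]
      exact Submodule.smul_mem _ _ ha
  · change δ (p.2 a b) = 0
    rw [h2 a b hab, map_zero]
  · have h5 := hH.stab_map (derK δ QA fun x hx => mem_QA.1 hx) h4
    have h6 : (fromBlocks p.1 0 0 p.2).map (derK δ QA fun x hx => mem_QA.1 hx) =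
        fromBlocks (p.1.map δ) 0 0 (p.2.map δ) := by
      rw [fromBlocks_map]
      congr 1
      · ext a b
        exact map_zero δ
      · ext a b
        exact map_zero δ
    rw [h6] at h5
    exact h5

theorem mem_L1 {d : ℕ} {x : Matrix N N ℂ} {y : Matrix B B ℂ} :
    (x, y) ∈ L1 Γ piece Φ H d ↔ (∀ t ∈ Ts Γ, x * t - t * x ∈ Ts Γ) ∧ Blk piece y ∧
      Go piece Φ y ∧ Stab H d (fromBlocks x 0 0 y) := Iff.rfl

theorem blocks_br (x x' : Matrix N N ℂ) (y y' : Matrix B B ℂ) :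
    fromBlocks x 0 0 y * fromBlocks x' 0 0 y' - fromBlocks x' 0 0 y' * fromBlocks x 0 0 y =
      fromBlocks (x * x' - x' * x) 0 0 (y * y' - y' * y) := by
  rw [fromBlocks_multiply, fromBlocks_multiply, sub_eq_add_neg, fromBlocks_neg, fromBlocks_add]
  simp [sub_eq_add_neg]

theorem L1_br {d : ℕ} {x x' : Matrix N N ℂ} {y y' : Matrix B B ℂ}
    (hp : (x, y) ∈ L1 Γ piece Φ H d) (hq : (x', y') ∈ L1 Γ piece Φ H d) :
    Stab H d (fromBlocks (x * x' - x' * x) 0 0 (y * y' - y' * y)) := by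
  have h1 := (mem_L1.1 hp).2.2.2.comm (mem_L1.1 hq).2.2.2
  rwa [blocks_br] at h1

/-- The derived Lie algebra. -/
def L0 (Γ : Fin n → Matrix N N ℂ) (piece : B → D) (Φ : Matrix B B ℂ)
    (H : Set (Matrix (N ⊕ B) (N ⊕ B) ℂ)) (d : ℕ) :
    Submodule ℂ (Matrix N N ℂ × Matrix B B ℂ) where
  carrier := {p | p.1 ∈ La Γ ∧ Blk piece p.2 ∧ p.2ᵀ * Φ + Φ * p.2 = 0 ∧
    Stab H d (fromBlocks p.1 0 0 p.2)}
  zero_mem' := by
    refine ⟨Submodule.zero_mem _, fun _ _ _ => rfl, ?_, ?_⟩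
    · change (0 : Matrix B B ℂ)ᵀ * Φ + Φ * 0 = _
      rw [Matrix.transpose_zero, Matrix.zero_mul, Matrix.mul_zero, add_zero]
    · change Stab H d (fromBlocks 0 0 0 0)
      rw [fromBlocks_zero]
      exact Stab.zero
  add_mem' := by
    rintro p q ⟨h1, h2, h3, h4⟩ ⟨h5, h6, h7, h8⟩
    refine ⟨Submodule.add_mem _ h1 h5, fun a b hab => ?_, ?_, ?_⟩
    · change p.2 a b + q.2 a b = 0
      rw [h2 a b hab, h6 a b hab, add_zero]
    · change (p.2 + q.2)ᵀ * Φ + Φ * (p.2 + q.2) = 0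
      rw [Matrix.transpose_add, Matrix.add_mul, Matrix.mul_add, add_add_add_comm, h3, h7,
        add_zero]
    · have h9 := h4.add h8
      rw [fromBlocks_add, add_zero, add_zero] at h9
      exact h9
  smul_mem' := by
    rintro r p ⟨h1, h2, h3, h4⟩
    refine ⟨Submodule.smul_mem _ _ h1, fun a b hab => ?_, ?_, ?_⟩
    · change r * p.2 a b = 0
      rw [h2 a b hab, mul_zero]
    · change (r • p.2)ᵀ * Φ + Φ * (r • p.2) = 0
      rw [Matrix.transpose_smul, Matrix.smul_mul, Matrix.mul_smul, ← smul_add, h3, smul_zero]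
    · have h9 := h4.smul r
      rw [fromBlocks_smul, smul_zero, smul_zero] at h9
      exact h9

theorem mem_L0 {d : ℕ} {x : Matrix N N ℂ} {y : Matrix B B ℂ} :
    (x, y) ∈ L0 Γ piece Φ H d ↔ x ∈ La Γ ∧ Blk piece y ∧ yᵀ * Φ + Φ * y = 0 ∧
      Stab H d (fromBlocks x 0 0 y) := Iff.rfl

theorem L0_L1 {d : ℕ} (h : Cl Γ) {x : Matrix N N ℂ} {y : Matrix B B ℂ}
    (hp : (x, y) ∈ L0 Γ piece Φ H d) : (x, y) ∈ L1 Γ piece Φ H d := by
  obtain ⟨h1, h2, h3, h4⟩ := mem_L0.1 hp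
  refine mem_L1.2 ⟨fun t ht => h.la_vec h1 ht, h2, ⟨0, ?_⟩, h4⟩
  rw [h3]
  have h5 : dg piece (0 : D → ℂ) = 0 := by
    unfold dg
    exact diagonal_zero
  rw [h5, Matrix.zero_mul]

theorem Blk.br {y z : Matrix B B ℂ} (hy : Blk piece y) (hz : Blk piece z) :
    Blk piece (y * z - z * y) := by
  intro a b hab
  rw [Matrix.sub_apply, hy.mul hz a b hab, hz.mul hy a b hab, sub_zero]

theorem norm_log (hΓ : ∀ i a b, IsAlgebraic ℚ (Γ i a b)) {P P' : Matrix N N ℂ}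
    (hP : P * P' = 1) (hP' : P' * P = 1) (hG : InG Γ P P') (δ : Derivation ℚ ℂ ℂ) :
    ∀ t ∈ Ts Γ, P.map δ * P' * t - t * (P.map δ * P') ∈ Ts Γ := by
  have hone : AlgGrp QA (carr (⊤ : Subgroup (GL N ℂ))) := by
    refine algGrp_carr ⟨∅, fun p hp => absurd hp (Set.notMem_empty p), fun g => ?_⟩
    exact ⟨fun _ p hp => absurd hp (Set.notMem_empty p), fun _ => Subgroup.mem_top g⟩
  have h1 : (1 : Matrix N N ℂ) * 1 = 1 := Matrix.one_mul 1
  have h1a : ∀ i j, IsAlgebraic ℚ ((1 : Matrix N N ℂ) i j) := by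
    intro i j
    rw [Matrix.one_apply]
    split_ifs
    · exact isAlgebraic_one
    · exact isAlgebraic_zero
  have h2 : P * 1 ∈ carr (⊤ : Subgroup (GL N ℂ)) :=
    ⟨⟨P, P', hP, hP'⟩, Subgroup.mem_top _, (Matrix.mul_one P).symm⟩
  exact (Hd_P hone hΓ hP hP' (by rwa [Matrix.mul_one, Matrix.one_mul]) h1 h1a h1
    (fun i j => mem_QA.2 (h1a i j)) h2 0 δ).1

theorem blocks_map (δ : Derivation ℚ ℂ ℂ) (x : Matrix N N ℂ) (y : Matrix B B ℂ) :
    (fromBlocks x 0 0 y).map δ = fromBlocks (x.map δ) 0 0 (y.map δ) := by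
  rw [fromBlocks_map]
  congr 1
  · ext a b
    exact map_zero δ
  · ext a b
    exact map_zero δ

theorem blocks_mul (x x' : Matrix N N ℂ) (y y' : Matrix B B ℂ) :
    fromBlocks x 0 0 y * fromBlocks x' 0 0 y' = fromBlocks (x * x') 0 0 (y * y') := by
  rw [fromBlocks_multiply]
  simp

/-- The logarithmic derivatives. -/
theorem log_mem (hH : AlgGrp QA H)
    (hΓ : ∀ i a b, IsAlgebraic ℚ (Γ i a b)) {P P' : Matrix N N ℂ}
    (hP : P * P' = 1) (hP' : P' * P = 1) (hG : InG Γ P P')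
    {Q Q' Ψ : Matrix B B ℂ} (hQ : Q * Q' = 1) (hQ' : Q' * Q = 1) (hQb : Blk piece Q)
    (hΦ : ∀ a b, IsAlgebraic ℚ (Φ a b)) (hΨ : ∀ a b, IsAlgebraic ℚ (Ψ a b))
    {lam : D → ℂ} (hlam : ∀ k, lam k ≠ 0)
    (hper : ∀ a b, (Qᵀ * Φ * Q) a b = lam (piece a) * Ψ a b)
    {A A' : Matrix (N ⊕ B) (N ⊕ B) ℂ} (hA : A * A' = 1) (hAa : ∀ i j, A' i j ∈ QA)
    (hPA : fromBlocks P 0 0 Q * A ∈ H) (d : ℕ) (δ : Derivation ℚ ℂ ℂ) :
    (P.map δ * P', Q.map δ * Q') ∈ L1 Γ piece Φ H d := by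
  refine mem_L1.2 ⟨norm_log hΓ hP hP' hG δ, ?_, Go.log hlam hQb hQ hQ' hΦ hΨ hper δ, ?_⟩
  · refine Blk.mul (fun a b hab => ?_) (hQb.inv hQ hQ')
    rw [Matrix.map_apply, hQb a b hab, map_zero]
  · have e1 : fromBlocks P 0 0 Q * fromBlocks P' 0 0 Q' = 1 := by
      rw [blocks_mul, hP, hQ, fromBlocks_one]
    have e2 : fromBlocks P' 0 0 Q' * fromBlocks P 0 0 Q = 1 := by
      rw [blocks_mul, hP', hQ', fromBlocks_one]
    have h1 := hH.stab_der le_rfl (fun x hx => mem_QA.1 hx) e1 e2 hA hAa hPA (d := d) δ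
    rwa [blocks_map, blocks_mul] at h1

theorem hbr (X Y : Matrix N N ℂ) (c c' : ℂ) : (X + c • (1 : Matrix N N ℂ)) *
      (Y + c' • (1 : Matrix N N ℂ)) - (Y + c' • (1 : Matrix N N ℂ)) *
      (X + c • (1 : Matrix N N ℂ)) = X * Y - Y * X := by
  simp only [Matrix.add_mul, Matrix.mul_add, Matrix.smul_mul, Matrix.mul_smul, Matrix.one_mul,
    Matrix.mul_one]
  module

/-- The projection to the first factor. -/
def l1 (Γ : Fin n → Matrix N N ℂ) (piece : B → D) (Φ : Matrix B B ℂ)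
    (H : Set (Matrix (N ⊕ B) (N ⊕ B) ℂ)) (d : ℕ) : Submodule ℂ (Matrix N N ℂ) :=
  (L1 Γ piece Φ H d).map (LinearMap.fst ℂ _ _)

theorem mem_l1 {d : ℕ} {X : Matrix N N ℂ} :
    X ∈ l1 Γ piece Φ H d ↔ ∃ y, (X, y) ∈ L1 Γ piece Φ H d := by
  unfold l1
  constructor
  · rintro ⟨⟨X', y⟩, h1, h2⟩
    have h3 : X' = X := h2
    rw [← h3]
    exact ⟨y, h1⟩
  · rintro ⟨y, hy⟩
    exact ⟨_, hy, rfl⟩

/-- Up to scalars. -/
def l2 (Γ : Fin n → Matrix N N ℂ) (l : Submodule ℂ (Matrix N N ℂ)) :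
    Submodule ℂ (Matrix N N ℂ) where
  carrier := {Y | Y ∈ La Γ ∧ ∃ c : ℂ, Y + c • (1 : Matrix N N ℂ) ∈ l}
  zero_mem' := ⟨Submodule.zero_mem _, 0, by
    rw [zero_smul, add_zero]
    exact Submodule.zero_mem _⟩
  add_mem' := by
    rintro X Y ⟨h1, c, h2⟩ ⟨h3, c', h4⟩
    refine ⟨Submodule.add_mem _ h1 h3, c + c', ?_⟩
    have h5 : X + Y + (c + c') • (1 : Matrix N N ℂ) = (X + c • (1 : Matrix N N ℂ)) +
        (Y + c' • (1 : Matrix N N ℂ)) := by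
      rw [add_smul]
      abel
    rw [h5]
    exact Submodule.add_mem _ h2 h4
  smul_mem' := by
    rintro a X ⟨h1, c, h2⟩
    refine ⟨Submodule.smul_mem _ _ h1, a * c, ?_⟩
    have h5 : a • X + (a * c) • (1 : Matrix N N ℂ) = a • (X + c • (1 : Matrix N N ℂ)) := by
      rw [smul_add, smul_smul]
    rw [h5]
    exact Submodule.smul_mem _ _ h2

theorem mem_l2 {l : Submodule ℂ (Matrix N N ℂ)} {Y : Matrix N N ℂ} :
    Y ∈ l2 Γ l ↔ Y ∈ La Γ ∧ ∃ c : ℂ, Y + c • (1 : Matrix N N ℂ) ∈ l := Iff.rfl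

/-- Brackets lie in the derived algebra. -/
theorem der_mem (h : Cl Γ) {d : ℕ} {X Y : Matrix N N ℂ} (hX : X ∈ l2 Γ (l1 Γ piece Φ H d))
    (hY : Y ∈ l2 Γ (l1 Γ piece Φ H d)) : ∃ y, (X * Y - Y * X, y) ∈ L0 Γ piece Φ H d := by
  obtain ⟨h1, c, h2⟩ := mem_l2.1 hX
  obtain ⟨h3, c', h4⟩ := mem_l2.1 hY
  obtain ⟨y, hy⟩ := mem_l1.1 h2
  obtain ⟨z, hz⟩ := mem_l1.1 h4
  have h5 := L1_br hy hz
  rw [hbr] at h5
  have hy' := mem_L1.1 hy
  have hz' := mem_L1.1 hz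
  exact ⟨y * z - z * y, mem_L0.2 ⟨h.la_br h1 h3, hy'.2.1.br hz'.2.1,
    Go.br hy'.2.1 hz'.2.1 hy'.2.2.1 hz'.2.2.1, h5⟩⟩

theorem gen_core (hΓ : ∀ i a b, IsAlgebraic ℚ (Γ i a b)) {P P' : Matrix N N ℂ}
    (hP : P * P' = 1) (hP' : P' * P = 1) (hPE : P ∈ Ev Γ)
    (hW : ∀ C : Matrix N N ℂ, (∀ i j, IsAlgebraic ℚ (C i j)) → ∑ p : N × N,
      C p.1 p.2 * P p.1 p.2 = 0 → ∀ x ∈ Ev Γ, ∑ p : N × N, C p.1 p.2 * x p.1 p.2 = 0)
    (l : Submodule ℂ (Matrix N N ℂ))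
    (hdec : ∀ X ∈ l, ∃ Y ∈ La Γ, ∃ c : ℂ, X = Y + c • (1 : Matrix N N ℂ))
    (hder : ∀ δ : Derivation ℚ ℂ ℂ, ∀ X ∈ l, X.map δ ∈ l)
    (hlog : ∀ δ : Derivation ℚ ℂ ℂ, P.map δ * P' ∈ l) :
    Ev Γ ≤ Algebra.adjoin ℂ (l : Set (Matrix N N ℂ)) := by
  have h1 : ∀ i j, IsAlgebraic ℚ ((1 : Matrix N N ℂ) i j) := by
    intro i j
    rw [Matrix.one_apply]
    split_ifs
    · exact isAlgebraic_one
    · exact isAlgebraic_zero
  have h2 : ∀ X ∈ l, X ∈ Ev Γ := by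
    intro X hX
    obtain ⟨Y, hY, c, rfl⟩ := hdec X hX
    exact Subalgebra.add_mem _ (La_le_Ev hY) (Subalgebra.smul_mem _ (Subalgebra.one_mem _) c)
  have h3 : P * 1 ∈ Ev Γ := by rwa [Matrix.mul_one]
  have h4 : ∀ C : Matrix N N ℂ, (∀ i j, IsAlgebraic ℚ (C i j)) → ∑ p : N × N,
      C p.1 p.2 * P p.1 p.2 = 0 → ∀ x ∈ Ev Γ,
        ∑ p : N × N, C p.1 p.2 * (x * (1 : Matrix N N ℂ)) p.1 p.2 = 0 := by
    intro C hC h1 x hx
    rw [Matrix.mul_one]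
    exact hW C hC h1 x hx
  exact adjoin_ge (Ev Γ) l hP hP' (fun δ X hX => Ev_der hΓ δ hX) hder h2 hlog
    (Matrix.one_mul 1) h1 h3 h4

theorem gen_core2 (l : Submodule ℂ (Matrix N N ℂ))
    (hdec : ∀ X ∈ l, ∃ Y ∈ La Γ, ∃ c : ℂ, X = Y + c • (1 : Matrix N N ℂ)) :
    Algebra.adjoin ℂ (l : Set (Matrix N N ℂ)) ≤
      Algebra.adjoin ℂ (l2 Γ l : Set (Matrix N N ℂ)) := by
  refine Algebra.adjoin_le ?_
  intro X hX
  obtain ⟨Y, hY, c, hc⟩ := hdec X hX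
  have h1 : Y ∈ l2 Γ l := mem_l2.2 ⟨hY, c, by
    rw [← hc]
    exact hX⟩
  have h2 : Y ∈ Algebra.adjoin ℂ (l2 Γ l : Set (Matrix N N ℂ)) := Algebra.subset_adjoin h1
  rw [hc]
  exact Subalgebra.add_mem _ h2 (Subalgebra.smul_mem _ (Subalgebra.one_mem _) c)

/-- The projection is everything, up to scalars. -/
theorem La_le_l2 (h : Cl Γ) (hn : 6 ≤ n) (hH : AlgGrp QA H)
    (hΓ : ∀ i a b, IsAlgebraic ℚ (Γ i a b)) {P P' : Matrix N N ℂ}
    (hP : P * P' = 1) (hP' : P' * P = 1) (hPE : P ∈ Ev Γ)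
    (hW : ∀ C : Matrix N N ℂ, (∀ i j, IsAlgebraic ℚ (C i j)) → ∑ p : N × N,
      C p.1 p.2 * P p.1 p.2 = 0 → ∀ x ∈ Ev Γ, ∑ p : N × N, C p.1 p.2 * x p.1 p.2 = 0)
    (hΦ : ∀ a b, IsAlgebraic ℚ (Φ a b)) {d : ℕ}
    (hlog : ∀ δ : Derivation ℚ ℂ ℂ, P.map δ * P' ∈ l1 Γ piece Φ H d) :
    La Γ ≤ l2 Γ (l1 Γ piece Φ H d) := by
  have hdec : ∀ X ∈ l1 Γ piece Φ H d, ∃ Y ∈ La Γ, ∃ c : ℂ,
      X = Y + c • (1 : Matrix N N ℂ) := by
    intro X hX
    obtain ⟨y, hy⟩ := mem_l1.1 hX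
    obtain ⟨Y, hY, c, hc⟩ := h.decomp fun i => (mem_L1.1 hy).1 _ (gam_mem i)
    exact ⟨Y, hY, c, hc⟩
  have hder : ∀ δ : Derivation ℚ ℂ ℂ, ∀ X ∈ l1 Γ piece Φ H d,
      X.map δ ∈ l1 Γ piece Φ H d := by
    intro δ X hX
    obtain ⟨y, hy⟩ := mem_l1.1 hX
    exact mem_l1.2 ⟨_, L1_der hH hΓ hΦ d δ hy⟩
  have hgen := (gen_core hΓ hP hP' hPE hW _ hdec hder hlog).trans (gen_core2 _ hdec)
  have hb : ∀ X ∈ l2 Γ (l1 Γ piece Φ H d), ∀ Y ∈ l2 Γ (l1 Γ piece Φ H d),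
      X * Y - Y * X ∈ l2 Γ (l1 Γ piece Φ H d) := by
    intro X hX Y hY
    obtain ⟨y, hy⟩ := der_mem h hX hY
    refine mem_l2.2 ⟨(mem_L0.1 hy).1, 0, ?_⟩
    rw [zero_smul, add_zero]
    exact mem_l1.2 ⟨y, L0_L1 h hy⟩
  exact h.spinAll (by omega) (by omega) hb (fun X hX => (mem_l2.1 hX).1) hgen

theorem rel_L0 (h : Cl Γ) (hn : 6 ≤ n) {d : ℕ} (hle : La Γ ≤ l2 Γ (l1 Γ piece Φ H d)) :
    Rel Γ piece Φ (L0 Γ piece Φ H d) := by
  refine ⟨?_, fun p hp => hp.1, fun p hp => hp.2.1, fun p hp => hp.2.2.1, ?_⟩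
  · rintro ⟨x, y⟩ hp ⟨x', y'⟩ hq
    have h1 := mem_L1.1 (L0_L1 h hp)
    have h2 := mem_L1.1 (L0_L1 h hq)
    exact mem_L0.2 ⟨h.la_br (mem_L0.1 hp).1 (mem_L0.1 hq).1, h1.2.1.br h2.2.1,
      Go.br h1.2.1 h2.2.1 h1.2.2.1 h2.2.2.1, L1_br (L0_L1 h hp) (L0_L1 h hq)⟩
  · intro x hx
    have hx' := La_le h hx
    clear hx
    induction hx' using Submodule.span_induction with
    | mem x hx =>
      obtain ⟨i, j, hij, rfl⟩ := hx
      obtain ⟨m, hm⟩ : ∃ m : Fin n, m ∉ ({i, j} : Finset (Fin n)) := by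
        by_contra hcon
        push Not at hcon
        have h6 : Fintype.card (Fin n) ≤ 2 := by
          calc Fintype.card (Fin n) = (Finset.univ : Finset (Fin n)).card := rfl
            _ ≤ ({i, j} : Finset (Fin n)).card := Finset.card_le_card fun k _ => hcon k
            _ ≤ 2 := Finset.card_le_two
        rw [Fintype.card_fin] at h6
        omega
      simp only [Finset.mem_insert, Finset.mem_singleton, not_or] at hm
      obtain ⟨hmi, hmj⟩ := hm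
      obtain ⟨y, hy⟩ := der_mem h (hle (mul_mem_La h (fun e => hmi e.symm)))
        (hle (mul_mem_La h hmj))
      have h4 := (L0 Γ piece Φ H d).smul_mem (2 : ℂ)⁻¹ hy
      refine ⟨(2 : ℂ)⁻¹ • y, ?_⟩
      rw [Prod.smul_mk, br_gam h hij hmi hmj, smul_smul, inv_mul_cancel₀ two_ne_zero,
        one_smul] at h4
      exact h4
    | zero => exact ⟨0, Submodule.zero_mem _⟩
    | add x x' _ _ hx hx' =>
      obtain ⟨y, h1⟩ := hx
      obtain ⟨y', h3⟩ := hx'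
      exact ⟨y + y', Submodule.add_mem _ h1 h3⟩
    | smul c x _ hx =>
      obtain ⟨y, h1⟩ := hx
      exact ⟨c • y, Submodule.smul_mem _ c h1⟩

/-- **The main lemma.** -/
theorem stab_main (h : Cl Γ) (hn : 6 ≤ n) (hH : AlgGrp QA H)
    (hΓ : ∀ i a b, IsAlgebraic ℚ (Γ i a b)) {P P' : Matrix N N ℂ}
    (hP : P * P' = 1) (hP' : P' * P = 1) (hG : InG Γ P P') (hPE : P ∈ Ev Γ)
    (hW : ∀ C : Matrix N N ℂ, (∀ i j, IsAlgebraic ℚ (C i j)) → ∑ p : N × N,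
      C p.1 p.2 * P p.1 p.2 = 0 → ∀ x ∈ Ev Γ, ∑ p : N × N, C p.1 p.2 * x p.1 p.2 = 0)
    {Q Q' Ψ : Matrix B B ℂ} (hQ : Q * Q' = 1) (hQ' : Q' * Q = 1) (hQb : Blk piece Q)
    (hΦb : Blk piece Φ) {Φ' : Matrix B B ℂ} (hΦ1 : Φ * Φ' = 1) (hΦ2 : Φ' * Φ = 1)
    (hΦ : ∀ a b, IsAlgebraic ℚ (Φ a b)) (hΨ : ∀ a b, IsAlgebraic ℚ (Ψ a b)) {ε : D → ℂ}
    (hsym : ∀ a b, Φ b a = ε (piece a) * Φ a b) {lam : D → ℂ} (hlam : ∀ k, lam k ≠ 0)
    (hper : ∀ a b, (Qᵀ * Φ * Q) a b = lam (piece a) * Ψ a b)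
    (hsmall : ∀ k, (ε k = 1 ∧ Nat.card {b // piece b = k} < n) ∨
      Nat.card {b // piece b = k} + 1 < n)
    {A A' : Matrix (N ⊕ B) (N ⊕ B) ℂ} (hA : A * A' = 1) (hAa : ∀ i j, A' i j ∈ QA)
    (hPA : fromBlocks P 0 0 Q * A ∈ H) (d : ℕ) :
    ∀ X ∈ La Γ, Stab H d (fromBlocks X 0 0 (0 : Matrix B B ℂ)) := by
  intro X hX
  have hlog := log_mem (piece := piece) hH hΓ hP hP' hG hQ hQ' hQb hΦ hΨ hlam hper hA hAa hPA d
  have hle := La_le_l2 h hn hH hΓ hP hP' hPE hW hΦ fun δ => mem_l1.2 ⟨_, hlog δ⟩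
  exact (mem_L0.1 (goursat h (by omega) (rel_L0 h hn hle) hsym hΦ2 (hΦb.inv hΦ1 hΦ2) hsmall
    X hX)).2.2.2

end Pool.Agent.TH128.KS
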