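import Pool.Agent.TH128.KS.Simple

/-!
# Goursat's lemma for the orthogonal Lie algebra and small polarized pieces
-/

set_option autoImplicit false
set_option linter.unusedSectionVars false

open Module Matrix

namespace Pool.Agent.TH128.KS

open Pool.Agent.TH164.Spin

variable {N B D : Type} [Fintype N] [DecidableEq N] [Nonempty N] [Fintype B] [DecidableEq B]
  {n : ℕ}
variable {Γ : Fin n → Matrix N N ℂ}

/-- Block diagonal matrices. -/
def Blk (piece : B → D) (y : Matrix B B ℂ) : Prop := ∀ a b, piece a ≠ piece b → y a b = 0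

theorem Blk.mul {piece : B → D} {y z : Matrix B B ℂ} (hy : Blk piece y) (hz : Blk piece z) :
    Blk piece (y * z) := by
  intro a b hab
  rw [Matrix.mul_apply]
  refine Finset.sum_eq_zero fun c _ => ?_
  by_cases h : piece a = piece c
  · rw [hz c b (fun e => hab (h.trans e)), mul_zero]
  · rw [hy a c h, zero_mul]

theorem mul_zero_on {piece : B → D} {A : Set D} {y z : Matrix B B ℂ} (hz : Blk piece z)
    (hy : ∀ a b, piece a ∈ A → y a b = 0) {a : B} (b : B) (ha : piece a ∈ A) :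
    (y * z) a b = 0 ∧ (z * y) a b = 0 := by
  constructor
  · rw [Matrix.mul_apply]
    exact Finset.sum_eq_zero fun c _ => by rw [hy a c ha, zero_mul]
  · rw [Matrix.mul_apply]
    refine Finset.sum_eq_zero fun c _ => ?_
    by_cases h : piece a = piece c
    · rw [hy c b (h ▸ ha), mul_zero]
    · rw [hz a c h, zero_mul]

/-- The Lie algebras of pairs. -/
structure Rel (Γ : Fin n → Matrix N N ℂ) (piece : B → D) (Φ : Matrix B B ℂ)
    (L : Submodule ℂ (Matrix N N ℂ × Matrix B B ℂ)) : Prop where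
  lie : ∀ p ∈ L, ∀ q ∈ L, (p.1 * q.1 - q.1 * p.1, p.2 * q.2 - q.2 * p.2) ∈ L
  la : ∀ p ∈ L, p.1 ∈ La Γ
  blk : ∀ p ∈ L, Blk piece p.2
  skew : ∀ p ∈ L, p.2ᵀ * Φ + Φ * p.2 = 0
  surj : ∀ x ∈ La Γ, ∃ y, (x, y) ∈ L

variable {piece : B → D} {Φ Φ' : Matrix B B ℂ} {ε : D → ℂ}
  {L : Submodule ℂ (Matrix N N ℂ × Matrix B B ℂ)}

theorem skew_entry (hsym : ∀ a b, Φ b a = ε (piece a) * Φ a b) {y : Matrix B B ℂ}
    (hy : Blk piece y) (h : yᵀ * Φ + Φ * y = 0) (a b : B) :
    (Φ * y) b a = -ε (piece a) * (Φ * y) a b := by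
  have h1 : (Φ * y) a b = -(yᵀ * Φ) a b := by
    have h2 := congrFun (congrFun h a) b
    rw [Matrix.add_apply, Matrix.zero_apply] at h2
    linear_combination h2
  rw [h1, neg_mul_neg, Matrix.mul_apply, Matrix.mul_apply, Finset.mul_sum]
  refine Finset.sum_congr rfl fun c _ => ?_
  rw [Matrix.transpose_apply]
  by_cases hc : piece c = piece a
  · rw [hsym c b, hc]
    ring
  · rw [hy c a hc]
    ring

theorem dim_le (h : Cl Γ) (hL : Rel Γ piece Φ L) {U : Type} [Fintype U]
    (β : L →ₗ[ℂ] (U → ℂ)) (hβ : ∀ p : L, β p = 0 → p.1.1 = 0) :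
    finrank ℂ (La Γ) ≤ Fintype.card U := by
  obtain ⟨α, hα⟩ : ∃ α : L →ₗ[ℂ] Matrix N N ℂ, ∀ p : L, α p = p.1.1 :=
    ⟨(LinearMap.fst ℂ _ _) ∘ₗ L.subtype, fun _ => rfl⟩
  have h1 : La Γ ≤ LinearMap.range α := by
    intro x hx
    obtain ⟨y, hy⟩ := hL.surj x hx
    exact ⟨⟨_, hy⟩, hα _⟩
  have h2 : LinearMap.ker β ≤ LinearMap.ker α := by
    intro p hp
    rw [LinearMap.mem_ker, hα]
    exact hβ p (LinearMap.mem_ker.1 hp)
  have h3 := Submodule.finrank_mono h1
  have h4 := Submodule.finrank_mono h2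
  have h5 := LinearMap.finrank_range_add_finrank_ker α
  have h6 := LinearMap.finrank_range_add_finrank_ker β
  have h7 := Submodule.finrank_le (LinearMap.range β)
  rw [Module.finrank_fintype_fun_eq_card] at h7
  omega

/-- One piece. -/
theorem one_block (h : Cl Γ) (h5 : 5 ≤ n) (hL : Rel Γ piece Φ L)
    (hsym : ∀ a b, Φ b a = ε (piece a) * Φ a b) (hΦ : Φ' * Φ = 1) (hΦb : Blk piece Φ')
    {k : D} {m : ℕ} (e : {b // piece b = k} ≃ Fin m) (U : Finset (Fin m × Fin m))
    (hU : ∀ i j, (i, j) ∈ U ∨ (j, i) ∈ U ∨ (i = j ∧ ε k = 1)) (hc : 2 * U.card < n * (n - 1)) :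
    ∀ x ∈ La Γ, ∃ y, (x, y) ∈ L ∧ ∀ a b, piece a ∈ ({k} : Set D) → y a b = 0 := by
  set K : Submodule ℂ (Matrix N N ℂ) :=
    { carrier := {x | ∃ y, (x, y) ∈ L ∧ ∀ a b, piece a ∈ ({k} : Set D) → y a b = 0}
      zero_mem' := ⟨0, L.zero_mem, fun _ _ _ => rfl⟩
      add_mem' := by
        rintro x x' ⟨y, h1, h2⟩ ⟨y', h3, h4⟩
        refine ⟨y + y', L.add_mem h1 h3, fun a b hab => ?_⟩
        rw [Matrix.add_apply, h2 a b hab, h4 a b hab, add_zero]
      smul_mem' := by
        rintro c x ⟨y, h1, h2⟩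
        refine ⟨c • y, L.smul_mem c h1, fun a b hab => ?_⟩
        rw [Matrix.smul_apply, h2 a b hab, smul_zero] } with hKdef
  by_cases hK0 : K = ⊥
  · exfalso
    obtain ⟨β, hβ⟩ : ∃ β : L →ₗ[ℂ] (U → ℂ), ∀ (p : L) (u : U), β p u =
        (Φ * p.1.2) (e.symm u.1.1).1 (e.symm u.1.2).1 :=
      ⟨{ toFun := fun p u => (Φ * p.1.2) (e.symm u.1.1).1 (e.symm u.1.2).1
         map_add' := fun p q => by
          funext u
          change (Φ * (p.1.2 + q.1.2)) _ _ = _
          rw [Matrix.mul_add]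
          rfl
         map_smul' := fun c p => by
          funext u
          change (Φ * (c • p.1.2)) _ _ = _
          rw [Matrix.mul_smul]
          rfl }, fun _ _ => rfl⟩
    have h1 := dim_le h hL β (by
      rintro ⟨⟨x, y⟩, hp⟩ h0
      have hyb := hL.blk _ hp
      have hsk := skew_entry hsym hyb (hL.skew _ hp)
      have h2 : ∀ i j, (i, j) ∈ U → (Φ * y) (e.symm i).1 (e.symm j).1 = 0 := by
        intro i j hij
        have h3 := congrFun h0 ⟨(i, j), hij⟩
        rw [hβ] at h3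
        exact h3
      have h3 : ∀ i j, (Φ * y) (e.symm i).1 (e.symm j).1 = 0 := by
        intro i j
        have h4 := hsk (e.symm j).1 (e.symm i).1
        rw [(e.symm j).2] at h4
        rcases hU i j with h5 | h5 | ⟨rfl, h5⟩
        · exact h2 i j h5
        · rw [h4, h2 j i h5, mul_zero]
        · rw [h5] at h4
          have h6 : (2 : ℂ) * (Φ * y) (e.symm i).1 (e.symm i).1 = 0 := by linear_combination h4
          exact (mul_eq_zero.1 h6).resolve_left two_ne_zero
      have h4 : x ∈ K := by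
        refine ⟨y, hp, fun a b ha => ?_⟩
        by_cases hab : piece a = piece b
        · have h5 : y a b = (Φ' * (Φ * y)) a b := by
            rw [← Matrix.mul_assoc, hΦ, Matrix.one_mul]
          rw [h5, Matrix.mul_apply]
          refine Finset.sum_eq_zero fun c _ => ?_
          by_cases hac : piece a = piece c
          · have h6 := h3 (e ⟨c, hac.symm.trans ha⟩) (e ⟨b, hab.symm.trans ha⟩)
            rw [e.symm_apply_apply, e.symm_apply_apply] at h6
            rw [h6, mul_zero]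
          · rw [hΦb a c hac, zero_mul]
        · exact hyb a b hab
      rw [hK0] at h4
      exact (Submodule.mem_bot ℂ).1 h4)
    rw [Fintype.card_coe] at h1
    have h2 := le_finrank h
    omega
  · have h1 := simple h h5 (K := K) (by
      rintro x ⟨y, hy, -⟩
      exact hL.la _ hy) (by
      rintro X hX Y ⟨y, hy, hy0⟩
      obtain ⟨z, hz⟩ := hL.surj X hX
      refine ⟨z * y - y * z, hL.lie _ hz _ hy, fun a b ha => ?_⟩
      obtain ⟨h2, h3⟩ := mul_zero_on (hL.blk _ hz) hy0 b ha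
      rw [Matrix.sub_apply]
      change (z * y) a b = 0 at h3
      rw [h3, h2, sub_zero]) hK0
    exact fun x hx => h1 hx

/-- A bracket. -/
theorem br_gam (h : Cl Γ) {i j m : Fin n} (hij : i ≠ j) (hmi : m ≠ i) (hmj : m ≠ j) :
    Γ i * Γ m * (Γ m * Γ j) - Γ m * Γ j * (Γ i * Γ m) = (2 : ℂ) • (Γ i * Γ j) := by
  have e1 : Γ i * Γ m * (Γ m * Γ j) = Γ i * Γ j := by
    calc Γ i * Γ m * (Γ m * Γ j) = Γ i * (Γ m * Γ m) * Γ j := by
          simp only [Matrix.mul_assoc]
      _ = Γ i * Γ j := by rw [h.sq_one, Matrix.mul_one]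
  have e2 : Γ m * Γ j * (Γ i * Γ m) = -(Γ i * Γ j) := by
    rw [← Matrix.mul_assoc, sg_com h hmj i, sg_ne (fun e => hmi e.symm) hij, one_smul]
    have e3 : Γ i * (Γ m * Γ j) * Γ m = Γ i * (Γ m * Γ j * Γ m) := by
      simp only [Matrix.mul_assoc]
    rw [e3, sg_com h hmj m, sg_eq (Or.inl rfl), neg_one_smul,
      ← Matrix.mul_assoc (Γ m) (Γ m), h.sq_one, Matrix.one_mul, Matrix.mul_neg]
  rw [e1, e2]
  module

/-- All pieces. -/
theorem all_blocks (h : Cl Γ) (h5 : 5 ≤ n) (hL : Rel Γ piece Φ L)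
    (hone : ∀ k, ∀ x ∈ La Γ, ∃ y, (x, y) ∈ L ∧ ∀ a b, piece a ∈ ({k} : Set D) → y a b = 0)
    [DecidableEq D] (A : Finset D) :
    ∀ x ∈ La Γ, ∃ y, (x, y) ∈ L ∧ ∀ a b, piece a ∈ (A : Set D) → y a b = 0 := by
  induction A using Finset.induction_on with
  | empty =>
    intro x hx
    obtain ⟨y, hy⟩ := hL.surj x hx
    refine ⟨y, hy, fun a b ha => ?_⟩
    rw [Finset.coe_empty] at ha
    exact absurd ha (Set.notMem_empty _)
  | insert k A _ ih =>
    intro x hx
    have hx' := La_le h hx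
    clear hx
    induction hx' using Submodule.span_induction with
    | mem x hx =>
      obtain ⟨i, j, hij, rfl⟩ := hx
      obtain ⟨m, hm⟩ : ∃ m : Fin n, m ∉ ({i, j} : Finset (Fin n)) := by
        by_contra hcon
        push Not at hcon
        have h6 : Fintype.card (Fin n) ≤ 2 := by
          calc Fintype.card (Fin n) = (Finset.univ : Finset (Fin n)).card := rfl
            _ ≤ ({i, j} : Finset (Fin n)).card := Finset.card_le_card fun k _ => hcon k
            _ ≤ 2 := Finset.card_le_two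
        rw [Fintype.card_fin] at h6
        omega
      simp only [Finset.mem_insert, Finset.mem_singleton, not_or] at hm
      obtain ⟨hmi, hmj⟩ := hm
      obtain ⟨y, hy, hy0⟩ := ih _ (mul_mem_La h (fun e => hmi e.symm))
      obtain ⟨z, hz, hz0⟩ := hone k _ (mul_mem_La h hmj)
      have h2 := hL.lie _ hy _ hz
      have h3 := br_gam h hij hmi hmj
      refine ⟨(2 : ℂ)⁻¹ • (y * z - z * y), ?_, fun a b ha => ?_⟩
      · have h4 := L.smul_mem (2 : ℂ)⁻¹ h2
        have h6 : ((2 : ℂ)⁻¹ • ((Γ i * Γ m * (Γ m * Γ j) - Γ m * Γ j * (Γ i * Γ m),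
            y * z - z * y) : Matrix N N ℂ × Matrix B B ℂ)) =
            (Γ i * Γ j, (2 : ℂ)⁻¹ • (y * z - z * y)) := by
          refine Prod.ext ?_ rfl
          change (2 : ℂ)⁻¹ • (Γ i * Γ m * (Γ m * Γ j) - Γ m * Γ j * (Γ i * Γ m)) = _
          rw [h3, smul_smul, inv_mul_cancel₀ two_ne_zero, one_smul]
        rwa [← h6]
      · rw [Matrix.smul_apply, Matrix.sub_apply]
        rw [Finset.coe_insert, Set.mem_insert_iff] at ha
        rcases ha with ha | ha
        · obtain ⟨h6, h7⟩ := mul_zero_on (hL.blk _ hy) hz0 b (a := a) ha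
          change (y * z) a b = 0 at h7
          rw [h7, h6, sub_zero, smul_zero]
        · obtain ⟨h6, h7⟩ := mul_zero_on (hL.blk _ hz) hy0 b ha
          change (z * y) a b = 0 at h7
          rw [h7, h6, sub_zero, smul_zero]
    | zero => exact ⟨0, L.zero_mem, fun _ _ _ => rfl⟩
    | add x x' _ _ hx hx' =>
      obtain ⟨y, h1, h2⟩ := hx
      obtain ⟨y', h3, h4⟩ := hx'
      refine ⟨y + y', L.add_mem h1 h3, fun a b hab => ?_⟩
      rw [Matrix.add_apply, h2 a b hab, h4 a b hab, add_zero]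
    | smul c x _ hx =>
      obtain ⟨y, h1, h2⟩ := hx
      refine ⟨c • y, L.smul_mem c h1, fun a b hab => ?_⟩
      rw [Matrix.smul_apply, h2 a b hab, smul_zero]

/-- **Goursat.** The Lie algebra contains the first factor. -/
theorem goursat (h : Cl Γ) (h5 : 5 ≤ n) (hL : Rel Γ piece Φ L)
    (hsym : ∀ a b, Φ b a = ε (piece a) * Φ a b) (hΦ : Φ' * Φ = 1) (hΦb : Blk piece Φ')
    (hsmall : ∀ k, (ε k = 1 ∧ Nat.card {b // piece b = k} < n) ∨
      Nat.card {b // piece b = k} + 1 < n) : ∀ x ∈ La Γ, (x, 0) ∈ L := by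
  classical
  have hone : ∀ k, ∀ x ∈ La Γ, ∃ y, (x, y) ∈ L ∧
      ∀ a b, piece a ∈ ({k} : Set D) → y a b = 0 := by
    intro k
    obtain ⟨m, hm⟩ : ∃ m, m = Nat.card {b // piece b = k} := ⟨_, rfl⟩
    have e : {b // piece b = k} ≃ Fin m := by
      rw [hm]
      exact Finite.equivFin _
    rcases hsmall k with ⟨h1, h2⟩ | h2
    · refine one_block h h5 hL hsym hΦ hΦb e
        (Finset.univ.filter fun p : Fin m × Fin m => p.1 < p.2) ?_ ?_
      · intro i j
        rcases lt_trichotomy i j with h3 | h3 | h3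
        · exact Or.inl (Finset.mem_filter.2 ⟨Finset.mem_univ _, h3⟩)
        · exact Or.inr (Or.inr ⟨h3, h1⟩)
        · exact Or.inr (Or.inl (Finset.mem_filter.2 ⟨Finset.mem_univ _, h3⟩))
      · rw [card_lt]
        rw [← hm] at h2
        obtain ⟨r, rfl⟩ : ∃ r, n = m + 1 + r := ⟨n - (m + 1), by omega⟩
        have h3 : m + 1 + r - 1 = m + r := by omega
        rw [h3]
        rcases Nat.eq_zero_or_pos m with rfl | hm0
        · have : 0 < (0 + 1 + r) * (0 + r) := Nat.mul_pos (by omega) (by omega)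
          omega
        · calc m * (m - 1) ≤ m * (m + r) := Nat.mul_le_mul_left _ (by omega)
            _ < (m + 1 + r) * (m + r) := Nat.mul_lt_mul_of_pos_right (by omega) (by omega)
    · refine one_block h h5 hL hsym hΦ hΦb e
        (Finset.univ.filter fun p : Fin m × Fin m => p.1 ≤ p.2) ?_ ?_
      · intro i j
        rcases le_total i j with h3 | h3
        · exact Or.inl (Finset.mem_filter.2 ⟨Finset.mem_univ _, h3⟩)
        · exact Or.inr (Or.inl (Finset.mem_filter.2 ⟨Finset.mem_univ _, h3⟩))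
      · rw [card_le]
        rw [← hm] at h2
        obtain ⟨r, rfl⟩ : ∃ r, n = m + 2 + r := ⟨n - (m + 2), by omega⟩
        have h3 : m + 2 + r - 1 = m + 1 + r := by omega
        rw [h3]
        calc (m + 1) * m ≤ (m + 1 + r) * m := Nat.mul_le_mul_right _ (by omega)
          _ < (m + 1 + r) * (m + 2 + r) := Nat.mul_lt_mul_of_pos_left (by omega) (by omega)
          _ = _ := Nat.mul_comm _ _
  intro x hx
  obtain ⟨y, hy, hy0⟩ := all_blocks h h5 hL hone (Finset.univ.image piece) x hx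
  have h1 : y = 0 := by
    ext a b
    exact hy0 a b (by simp)
  rwa [h1] at hy

end Pool.Agent.TH128.KS
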