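import Pool.Agent.TH164.Spin.Gen2

/-!
# The Lie algebra of the commutators of vectors is simple
-/

set_option autoImplicit false
set_option linter.unusedSectionVars false

open Module Matrix

namespace Pool.Agent.TH128.KS

open Pool.Agent.TH164.Spin

variable {N : Type} [Fintype N] [DecidableEq N] [Nonempty N] {n : ℕ}
variable {Γ : Fin n → Matrix N N ℂ}

theorem mul_mem_La (h : Cl Γ) {i j : Fin n} (hij : i ≠ j) : Γ i * Γ j ∈ La Γ := by
  have h1 : Γ i * Γ j = (1 / 2 : ℂ) • (Γ i * Γ j - Γ j * Γ i) := by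
    rw [h.anti' hij.symm, sub_neg_eq_add, ← two_smul ℂ (Γ i * Γ j), smul_smul]
    norm_num
  rw [h1]
  exact Submodule.smul_mem _ _ (Submodule.subset_span ⟨_, gam_mem i, _, gam_mem j, rfl⟩)

/-- The Lie algebra is spanned by the products of two different generators. -/
theorem La_le (h : Cl Γ) : La Γ ≤ Submodule.span ℂ {z | ∃ i j, i ≠ j ∧ z = Γ i * Γ j} := by
  refine Submodule.span_le.2 ?_
  rintro _ ⟨t, ht, s, hs, rfl⟩
  obtain ⟨v, rfl⟩ := mem_Ts.1 ht
  obtain ⟨w, rfl⟩ := mem_Ts.1 hs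
  rw [Finset.sum_mul_sum, Finset.sum_mul_sum, Finset.sum_comm, ← Finset.sum_sub_distrib]
  refine Submodule.sum_mem _ fun i _ => ?_
  rw [← Finset.sum_sub_distrib]
  refine Submodule.sum_mem _ fun j _ => ?_
  rw [Matrix.smul_mul, Matrix.mul_smul, Matrix.smul_mul, Matrix.mul_smul]
  by_cases hij : i = j
  · subst hij
    rw [smul_comm, sub_self]
    exact Submodule.zero_mem _
  · refine Submodule.sub_mem _ ?_ ?_
    · exact Submodule.smul_mem _ _ (Submodule.smul_mem _ _
        (Submodule.subset_span ⟨j, i, fun e => hij e.symm, rfl⟩))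
    · exact Submodule.smul_mem _ _ (Submodule.smul_mem _ _ (Submodule.subset_span ⟨i, j, hij, rfl⟩))

/-- The sign of a generator with respect to a product of two generators. -/
noncomputable def sg (a k i : Fin n) : ℂ := if i = a ∨ i = k then -1 else 1

theorem sg_eq {a k i : Fin n} (h : i = a ∨ i = k) : sg a k i = -1 := if_pos h

theorem sg_ne {a k i : Fin n} (h1 : i ≠ a) (h2 : i ≠ k) : sg a k i = 1 :=
  if_neg fun e => e.elim h1 h2

theorem sg_com (h : Cl Γ) {a k : Fin n} (hak : a ≠ k) (i : Fin n) :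
    Γ a * Γ k * Γ i = sg a k i • (Γ i * (Γ a * Γ k)) := by
  by_cases h1 : i = a
  · subst h1
    rw [sg_eq (Or.inl rfl), Matrix.mul_assoc, h.anti' hak.symm, Matrix.mul_neg, neg_one_smul]
  · by_cases h2 : i = k
    · subst h2
      rw [sg_eq (Or.inr rfl), Matrix.mul_assoc, h.sq_one, Matrix.mul_one, ← Matrix.mul_assoc,
        h.anti' h1, Matrix.neg_mul, Matrix.mul_assoc, h.sq_one, Matrix.mul_one, neg_one_smul,
        neg_neg]
    · rw [sg_ne h1 h2, one_smul, Matrix.mul_assoc, h.anti' (fun e => h2 e.symm), Matrix.mul_neg,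
        ← Matrix.mul_assoc, h.anti' (fun e => h1 e.symm), Matrix.neg_mul, neg_neg,
        Matrix.mul_assoc]

theorem sq_neg_one (h : Cl Γ) {a k : Fin n} (hak : a ≠ k) :
    Γ a * Γ k * (Γ a * Γ k) = -1 := by
  rw [← Matrix.mul_assoc, sg_com h hak a, sg_eq (Or.inl rfl), neg_one_smul, ← Matrix.mul_assoc,
    h.sq_one, Matrix.one_mul, Matrix.neg_mul, h.sq_one]

/-- The projection onto the matrices which anticommute with `Γ a * Γ k`. -/
noncomputable def pr (Γ : Fin n → Matrix N N ℂ) (a k : Fin n) :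
    Matrix N N ℂ →ₗ[ℂ] Matrix N N ℂ :=
  (1 / 2 : ℂ) • (LinearMap.id + (LinearMap.mulRight ℂ (Γ a * Γ k)) ∘ₗ
    (LinearMap.mulLeft ℂ (Γ a * Γ k)))

theorem pr_apply (a k : Fin n) (Y : Matrix N N ℂ) :
    pr Γ a k Y = (1 / 2 : ℂ) • (Y + Γ a * Γ k * Y * (Γ a * Γ k)) := rfl

theorem pr_gam (h : Cl Γ) {a k : Fin n} (hak : a ≠ k) (i j : Fin n) :
    pr Γ a k (Γ i * Γ j) = ((1 - sg a k i * sg a k j) / 2) • (Γ i * Γ j) := by
  have h1 : Γ a * Γ k * (Γ i * Γ j) * (Γ a * Γ k) = -((sg a k i * sg a k j) • (Γ i * Γ j)) := by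
    calc Γ a * Γ k * (Γ i * Γ j) * (Γ a * Γ k) =
        (Γ a * Γ k * Γ i) * Γ j * (Γ a * Γ k) := by simp only [Matrix.mul_assoc]
      _ = sg a k i • (Γ i * (Γ a * Γ k * Γ j) * (Γ a * Γ k)) := by
        rw [sg_com h hak i, Matrix.smul_mul, Matrix.smul_mul]
        simp only [Matrix.mul_assoc]
      _ = (sg a k i * sg a k j) • (Γ i * Γ j * (Γ a * Γ k * (Γ a * Γ k))) := by
        rw [sg_com h hak j, Matrix.mul_smul, Matrix.smul_mul, smul_smul]
        simp only [Matrix.mul_assoc]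
      _ = _ := by
        rw [sq_neg_one h hak, Matrix.mul_neg, Matrix.mul_one, smul_neg]
  rw [pr_apply, h1]
  module

/-- The ideals are stable under the projections. -/
theorem pr_mem (h : Cl Γ) {K : Submodule ℂ (Matrix N N ℂ)}
    (hK : ∀ X ∈ La Γ, ∀ Y ∈ K, X * Y - Y * X ∈ K) {a k : Fin n} (hak : a ≠ k)
    {Y : Matrix N N ℂ} (hY : Y ∈ K) : pr Γ a k Y ∈ K := by
  have h1 := hK _ (mul_mem_La h hak) _ (hK _ (mul_mem_La h hak) _ hY)
  have h2 : pr Γ a k Y = (-(1 / 4) : ℂ) • (Γ a * Γ k * (Γ a * Γ k * Y - Y * (Γ a * Γ k)) -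
      (Γ a * Γ k * Y - Y * (Γ a * Γ k)) * (Γ a * Γ k)) := by
    rw [pr_apply, Matrix.mul_sub, Matrix.sub_mul]
    have e1 : Γ a * Γ k * (Γ a * Γ k * Y) = -Y := by
      rw [← Matrix.mul_assoc, sq_neg_one h hak, Matrix.neg_mul, Matrix.one_mul]
    have e2 : Y * (Γ a * Γ k) * (Γ a * Γ k) = -Y := by
      rw [Matrix.mul_assoc, sq_neg_one h hak, Matrix.mul_neg, Matrix.mul_one]
    rw [e1, e2, Matrix.mul_assoc (Γ a * Γ k) Y (Γ a * Γ k)]
    module
  rw [h2]
  exact K.smul_mem _ h1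

/-- The projections are self-adjoint. -/
theorem pr_trace (a k : Fin n) (Y Z : Matrix N N ℂ) :
    (pr Γ a k Y * Z).trace = (Y * pr Γ a k Z).trace := by
  rw [pr_apply, pr_apply, Matrix.smul_mul, Matrix.mul_smul, Matrix.trace_smul, Matrix.trace_smul,
    Matrix.add_mul, Matrix.mul_add, Matrix.trace_add, Matrix.trace_add]
  congr 2
  calc (Γ a * Γ k * Y * (Γ a * Γ k) * Z).trace = (Γ a * Γ k * (Y * (Γ a * Γ k) * Z)).trace := by
        simp only [Matrix.mul_assoc]
    _ = (Y * (Γ a * Γ k) * Z * (Γ a * Γ k)).trace := Matrix.trace_mul_comm _ _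
    _ = (Y * (Γ a * Γ k * Z * (Γ a * Γ k))).trace := by simp only [Matrix.mul_assoc]

/-- Several projections. -/
noncomputable def prl (Γ : Fin n → Matrix N N ℂ) (a : Fin n) : List (Fin n) →
    Matrix N N ℂ →ₗ[ℂ] Matrix N N ℂ
  | [] => LinearMap.id
  | k :: l => (pr Γ a k) ∘ₗ (prl Γ a l)

theorem prl_mem (h : Cl Γ) {K : Submodule ℂ (Matrix N N ℂ)}
    (hK : ∀ X ∈ La Γ, ∀ Y ∈ K, X * Y - Y * X ∈ K) {a : Fin n} {Y : Matrix N N ℂ} (hY : Y ∈ K) :
    ∀ l : List (Fin n), (∀ k ∈ l, a ≠ k) → prl Γ a l Y ∈ K := by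
  intro l
  induction l with
  | nil => exact fun _ => hY
  | cons k l ih =>
    intro hl
    exact pr_mem h hK (hl k (List.mem_cons_self ..)) (ih fun k hk => hl k (List.mem_cons_of_mem _ hk))

theorem prl_gam (h : Cl Γ) {a i j : Fin n} : ∀ l : List (Fin n), (∀ k ∈ l, a ≠ k) →
    ∃ c : ℂ, prl Γ a l (Γ i * Γ j) = c • (Γ i * Γ j) ∧
      ((∃ k ∈ l, sg a k i * sg a k j = 1) → c = 0) ∧
      ((∀ k ∈ l, sg a k i * sg a k j = -1) → c = 1) := by
  intro l
  induction l with
  | nil =>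
    intro _
    refine ⟨1, ?_, ?_, fun _ => rfl⟩
    · rw [one_smul]
      rfl
    · rintro ⟨k, hk, -⟩
      exact absurd hk (List.not_mem_nil)
  | cons k l ih =>
    intro hl
    obtain ⟨c, h1, h2, h3⟩ := ih fun k hk => hl k (List.mem_cons_of_mem _ hk)
    refine ⟨c * ((1 - sg a k i * sg a k j) / 2), ?_, ?_, ?_⟩
    · change pr Γ a k (prl Γ a l (Γ i * Γ j)) = _
      rw [h1, map_smul, pr_gam h (hl k (List.mem_cons_self ..)), smul_smul]
    · rintro ⟨k', hk', h4⟩
      rcases List.mem_cons.1 hk' with rfl | hk'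
      · rw [h4, sub_self, zero_div, mul_zero]
      · rw [h2 ⟨k', hk', h4⟩, zero_mul]
    · intro h4
      rw [h4 k (List.mem_cons_self ..), h3 fun k hk => h4 k (List.mem_cons_of_mem _ hk)]
      norm_num

theorem prl_trace {a : Fin n} : ∀ (l : List (Fin n)) (Y : Matrix N N ℂ) (Z : Matrix N N ℂ),
    (∀ k ∈ l, pr Γ a k Z = Z) → (prl Γ a l Y * Z).trace = (Y * Z).trace := by
  intro l
  induction l with
  | nil => exact fun _ _ _ => rfl
  | cons k l ih =>
    intro Y Z hZ
    change (pr Γ a k (prl Γ a l Y) * Z).trace = _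
    rw [pr_trace, hZ k (List.mem_cons_self ..)]
    exact ih Y Z fun k hk => hZ k (List.mem_cons_of_mem _ hk)

/-- A nonzero element of the Lie algebra is detected by the products of two generators. -/
theorem exists_trace (h : Cl Γ) {Y : Matrix N N ℂ} (hY : Y ∈ La Γ) (h0 : Y ≠ 0) :
    ∃ i j : Fin n, i ≠ j ∧ (Y * (Γ i * Γ j)).trace ≠ 0 := by
  by_contra hcon
  push Not at hcon
  apply h0
  have hcomm : ∀ i, Y * Γ i = Γ i * Y := by
    intro i
    have h1 := h.la_vec hY (gam_mem i)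
    have h2 : Y * Γ i - Γ i * Y = 0 := by
      refine h.nd h1 fun s hs => ?_
      induction hs using Submodule.span_induction with
      | mem x hx =>
        obtain ⟨j, rfl⟩ := hx
        rw [bq_apply, Matrix.sub_mul, Matrix.trace_sub]
        have h3 : (Γ i * Y * Γ j).trace = (Y * (Γ j * Γ i)).trace := by
          rw [Matrix.mul_assoc, Matrix.trace_mul_comm, Matrix.mul_assoc]
        rw [h3, Matrix.mul_assoc]
        by_cases hij : i = j
        · subst hij
          rw [sub_self, zero_div]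
        · rw [hcon i j hij, hcon j i fun e => hij e.symm, sub_zero, zero_div]
      | zero => exact map_zero _
      | add a b _ _ ha hb => rw [map_add, ha, hb, add_zero]
      | smul c a _ ha => rw [map_smul, ha, smul_zero]
    exact sub_eq_zero.1 h2
  obtain ⟨c, hc⟩ := h.scalar_of_commute hcomm
  have h1 := Cl.la_trace hY
  rw [hc, Matrix.trace_smul, Matrix.trace_one, smul_eq_mul] at h1
  rw [hc, (mul_eq_zero.1 h1).resolve_right Cl.card_ne, zero_smul]

/-- **Simplicity.** -/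
theorem simple (h : Cl Γ) (h5 : 5 ≤ n) {K : Submodule ℂ (Matrix N N ℂ)} (hKL : K ≤ La Γ)
    (hK : ∀ X ∈ La Γ, ∀ Y ∈ K, X * Y - Y * X ∈ K) (h0 : K ≠ ⊥) : La Γ ≤ K := by
  obtain ⟨Y, hY, hY0⟩ := Submodule.exists_mem_ne_zero_of_ne_bot h0
  obtain ⟨a, b, hab, htr⟩ := exists_trace h (hKL hY) hY0
  obtain ⟨l, hl⟩ : ∃ l : List (Fin n), ∀ k, k ∈ l ↔ a ≠ k ∧ b ≠ k :=
    ⟨(Finset.univ.filter fun k => a ≠ k ∧ b ≠ k).toList, fun k => by simp⟩
  have hla : ∀ k ∈ l, a ≠ k := fun k hk => ((hl k).1 hk).1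
  -- the product `Γ a * Γ b` is fixed
  have hfix : ∀ k ∈ l, pr Γ a k (Γ a * Γ b) = Γ a * Γ b := by
    intro k hk
    obtain ⟨h1, h2⟩ := (hl k).1 hk
    rw [pr_gam h h1, sg_eq (Or.inl rfl), sg_ne (fun e => hab e.symm) h2]
    norm_num
  -- everything else is killed
  have hkill : ∀ X ∈ La Γ, ∃ c : ℂ, prl Γ a l X = c • (Γ a * Γ b) := by
    intro X hX
    have hX' := La_le h hX
    clear hX
    induction hX' using Submodule.span_induction with
    | mem x hx =>
      obtain ⟨i, j, hij, rfl⟩ := hx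
      by_cases h1 : i = a ∧ j = b
      · obtain ⟨rfl, rfl⟩ := h1
        obtain ⟨c, h2, -, -⟩ := prl_gam h (a := i) (i := i) (j := j) l hla
        exact ⟨c, h2⟩
      by_cases h2 : i = b ∧ j = a
      · obtain ⟨rfl, rfl⟩ := h2
        obtain ⟨c, h2, -, -⟩ := prl_gam h (a := j) (i := i) (j := j) l hla
        refine ⟨-c, ?_⟩
        rw [h2, h.anti' hij, smul_neg, neg_smul]
      obtain ⟨c, h3, h4, -⟩ := prl_gam h (a := a) (i := i) (j := j) l hla
      refine ⟨0, ?_⟩
      rw [h3, h4, zero_smul, zero_smul]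
      by_cases hia : i = a
      · have hjb : b ≠ j := fun e => h1 ⟨hia, e.symm⟩
        have hja : a ≠ j := fun e => hij (hia.trans e)
        refine ⟨j, (hl j).2 ⟨hja, hjb⟩, ?_⟩
        rw [sg_eq (Or.inl hia), sg_eq (Or.inr rfl)]
        norm_num
      by_cases hja : j = a
      · have hib : b ≠ i := fun e => h2 ⟨e.symm, hja⟩
        refine ⟨i, (hl i).2 ⟨fun e => hia e.symm, hib⟩, ?_⟩
        rw [sg_eq (Or.inr rfl), sg_eq (Or.inl hja)]
        norm_num
      obtain ⟨k, hk⟩ : ∃ k : Fin n, k ∉ ({a, b, i, j} : Finset (Fin n)) := by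
        by_contra hcon
        push Not at hcon
        have h6 : Fintype.card (Fin n) ≤ 4 := by
          calc Fintype.card (Fin n) = (Finset.univ : Finset (Fin n)).card := rfl
            _ ≤ ({a, b, i, j} : Finset (Fin n)).card :=
              Finset.card_le_card fun k _ => hcon k
            _ ≤ 4 := Finset.card_le_four
        rw [Fintype.card_fin] at h6
        omega
      simp only [Finset.mem_insert, Finset.mem_singleton, not_or] at hk
      obtain ⟨k1, k2, k3, k4⟩ := hk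
      refine ⟨k, (hl k).2 ⟨fun e => k1 e.symm, fun e => k2 e.symm⟩, ?_⟩
      rw [sg_ne hia fun e => k3 e.symm, sg_ne hja fun e => k4 e.symm, mul_one]
    | zero => exact ⟨0, by rw [map_zero, zero_smul]⟩
    | add x y _ _ hx hy =>
      obtain ⟨c, hc⟩ := hx
      obtain ⟨d, hd⟩ := hy
      exact ⟨c + d, by rw [map_add, hc, hd, add_smul]⟩
    | smul r x _ hx =>
      obtain ⟨c, hc⟩ := hx
      exact ⟨r * c, by rw [map_smul, hc, smul_smul]⟩
  obtain ⟨c, hc⟩ := hkill Y (hKL hY)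
  have hc0 : c ≠ 0 := by
    rintro rfl
    have h1 := prl_trace l Y (Γ a * Γ b) hfix
    rw [hc, zero_smul, Matrix.zero_mul, Matrix.trace_zero] at h1
    exact htr h1.symm
  have hab' : Γ a * Γ b ∈ K := by
    have h1 := K.smul_mem c⁻¹ (prl_mem h hK hY l hla)
    rwa [hc, smul_smul, inv_mul_cancel₀ hc0, one_smul] at h1
  -- from one product to the others
  have hstep : ∀ {i j k : Fin n}, i ≠ j → i ≠ k → Γ i * Γ j ∈ K → Γ i * Γ k ∈ K := by
    intro i j k hij hik h1
    by_cases hjk : j = k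
    · rwa [← hjk]
    have h2 := hK _ (mul_mem_La h hjk) _ h1
    have h3 : Γ j * Γ k * (Γ i * Γ j) - Γ i * Γ j * (Γ j * Γ k) = (-2 : ℂ) • (Γ i * Γ k) := by
      have e1 : Γ i * Γ j * (Γ j * Γ k) = Γ i * Γ k := by
        calc Γ i * Γ j * (Γ j * Γ k) = Γ i * (Γ j * Γ j) * Γ k := by simp only [Matrix.mul_assoc]
          _ = Γ i * Γ k := by rw [h.sq_one, Matrix.mul_one]
      have e2 : Γ j * Γ k * (Γ i * Γ j) = -(Γ i * Γ k) := by
        rw [← Matrix.mul_assoc, sg_com h hjk i, sg_ne hij hik, one_smul]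
        have e3 : Γ i * (Γ j * Γ k) * Γ j = Γ i * (Γ j * Γ k * Γ j) := by
          simp only [Matrix.mul_assoc]
        rw [e3, sg_com h hjk j, sg_eq (Or.inl rfl), neg_one_smul, ← Matrix.mul_assoc (Γ j) (Γ j),
          h.sq_one, Matrix.one_mul, Matrix.mul_neg]
      rw [e1, e2]
      module
    rw [h3] at h2
    have h4 := K.smul_mem (-2 : ℂ)⁻¹ h2
    rwa [smul_smul, inv_mul_cancel₀ (by norm_num), one_smul] at h4
  have hsw : ∀ {i j : Fin n}, i ≠ j → Γ i * Γ j ∈ K → Γ j * Γ i ∈ K := by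
    intro i j hij h1
    rw [h.anti' hij.symm]
    exact K.neg_mem h1
  have hall : ∀ i j : Fin n, i ≠ j → Γ i * Γ j ∈ K := by
    intro i j hij
    by_cases hia : i = a
    · subst hia
      exact hstep hab hij hab'
    · have h1 : Γ a * Γ i ∈ K := hstep hab (fun e => hia e.symm) hab'
      exact hstep hia hij (hsw (fun e => hia e.symm) h1)
  refine (La_le h).trans (Submodule.span_le.2 ?_)
  rintro _ ⟨i, j, hij, rfl⟩
  exact hall i j hij

/-- The number of pairs. -/
theorem card_lt (b : ℕ) :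
    2 * (Finset.univ.filter fun p : Fin b × Fin b => p.1 < p.2).card = b * (b - 1) := by
  rw [Finset.card_filter, Fintype.sum_prod_type_right]
  have h1 : ∀ j : Fin b, ∑ i : Fin b, (if i < j then 1 else 0) = (j : ℕ) := by
    intro j
    rw [← Finset.card_filter]
    have h2 : (Finset.univ.filter fun i : Fin b => i < j) = Finset.Iio j := by
      ext i
      simp
    rw [h2, Fin.card_Iio]
  rw [Finset.sum_congr rfl fun j _ => h1 j, Fin.sum_univ_eq_sum_range (fun j => j) b, mul_comm,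
    Finset.sum_range_id_mul_two]

theorem card_le (b : ℕ) :
    2 * (Finset.univ.filter fun p : Fin b × Fin b => p.1 ≤ p.2).card = (b + 1) * b := by
  rw [Finset.card_filter, Fintype.sum_prod_type_right]
  have h1 : ∀ j : Fin b, ∑ i : Fin b, (if i ≤ j then 1 else 0) = (j : ℕ) + 1 := by
    intro j
    rw [← Finset.card_filter]
    have h2 : (Finset.univ.filter fun i : Fin b => i ≤ j) = Finset.Iic j := by
      ext i
      simp
    rw [h2, Fin.card_Iic]
  rw [Finset.sum_congr rfl fun j _ => h1 j, Fin.sum_univ_eq_sum_range (fun j => j + 1) b, mul_comm]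
  have h2 := Finset.sum_range_id_mul_two (b + 1)
  rw [Finset.sum_range_succ'] at h2
  simpa using h2

theorem tr_orth (h : Cl Γ) {i j k l m : Fin n} (hij : i ≠ j) (hkl : k ≠ l) (hm : m = i ∨ m = j)
    (hk : m ≠ k) (hl : m ≠ l) : (Γ i * Γ j * (Γ k * Γ l)).trace = 0 := by
  have h1 : Γ i * Γ j * Γ m = -(Γ m * (Γ i * Γ j)) := by
    rw [sg_com h hij, sg_eq hm, neg_one_smul]
  have h2 : Γ k * Γ l * Γ m = Γ m * (Γ k * Γ l) := by
    rw [sg_com h hkl, sg_ne hk hl, one_smul]
  have h3 : (Γ i * Γ j * (Γ k * Γ l)).trace = -(Γ i * Γ j * (Γ k * Γ l)).trace := by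
    calc (Γ i * Γ j * (Γ k * Γ l)).trace = (Γ i * Γ j * (Γ k * Γ l) * (Γ m * Γ m)).trace := by
          rw [h.sq_one, Matrix.mul_one]
      _ = (Γ i * Γ j * (Γ k * Γ l * Γ m) * Γ m).trace := by simp only [Matrix.mul_assoc]
      _ = (Γ i * Γ j * Γ m * (Γ k * Γ l) * Γ m).trace := by
        rw [h2]
        simp only [Matrix.mul_assoc]
      _ = -(Γ m * (Γ i * Γ j * (Γ k * Γ l) * Γ m)).trace := by
        rw [h1, Matrix.neg_mul, Matrix.neg_mul, Matrix.trace_neg]
        simp only [Matrix.mul_assoc]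
      _ = -(Γ i * Γ j * (Γ k * Γ l) * Γ m * Γ m).trace := by rw [Matrix.trace_mul_comm]
      _ = -(Γ i * Γ j * (Γ k * Γ l)).trace := by
        rw [Matrix.mul_assoc _ (Γ m) (Γ m), h.sq_one, Matrix.mul_one]
  have h4 : (2 : ℂ) * (Γ i * Γ j * (Γ k * Γ l)).trace = 0 := by linear_combination h3
  exact (mul_eq_zero.1 h4).resolve_left two_ne_zero

/-- The dimension of the Lie algebra. -/
theorem le_finrank (h : Cl Γ) : n * (n - 1) ≤ 2 * finrank ℂ (La Γ) := by
  have hli : LinearIndependent ℂ (fun p : {p : Fin n × Fin n // p.1 < p.2} =>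
      (⟨Γ p.1.1 * Γ p.1.2, mul_mem_La h (ne_of_lt p.2)⟩ : La Γ)) := by
    rw [Fintype.linearIndependent_iff]
    intro g hg q
    have h1 := congrArg (fun X : La Γ => ((X : Matrix N N ℂ) * (Γ q.1.1 * Γ q.1.2)).trace) hg
    simp only [Submodule.coe_sum, Submodule.coe_smul, Submodule.coe_zero, Matrix.zero_mul,
      Matrix.trace_zero] at h1
    rw [Finset.sum_mul, Matrix.trace_sum, Finset.sum_eq_single q] at h1
    · rw [Matrix.smul_mul, Matrix.trace_smul, sq_neg_one h (ne_of_lt q.2), Matrix.trace_neg,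
        Matrix.trace_one, smul_eq_mul, mul_neg, neg_eq_zero] at h1
      exact (mul_eq_zero.1 h1).resolve_right Cl.card_ne
    · intro p _ hpq
      rw [Matrix.smul_mul, Matrix.trace_smul]
      have h2 : (Γ p.1.1 * Γ p.1.2 * (Γ q.1.1 * Γ q.1.2)).trace = 0 := by
        by_cases h3 : p.1.1 ≠ q.1.1 ∧ p.1.1 ≠ q.1.2
        · exact tr_orth h (ne_of_lt p.2) (ne_of_lt q.2) (Or.inl rfl) h3.1 h3.2
        · have h4 : p.1.2 ≠ q.1.1 ∧ p.1.2 ≠ q.1.2 := by
            have hp := p.2
            have hq := q.2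
            have hne : ¬ (p.1.1 = q.1.1 ∧ p.1.2 = q.1.2) := fun e =>
              hpq (Subtype.ext (Prod.ext e.1 e.2))
            by_contra hcon
            rw [not_and_or, not_ne_iff, not_ne_iff] at h3 hcon
            rcases h3 with h3 | h3 <;> rcases hcon with h5 | h5
            · exact absurd (h3.trans h5.symm) (ne_of_lt hp)
            · exact hne ⟨h3, h5⟩
            · rw [h3, h5] at hp
              exact absurd hp (not_lt_of_gt hq)
            · exact absurd (h3.trans h5.symm) (ne_of_lt hp)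
          exact tr_orth h (ne_of_lt p.2) (ne_of_lt q.2) (Or.inr rfl) h4.1 h4.2
      rw [h2, smul_zero]
    · intro hq
      exact absurd (Finset.mem_univ _) hq
  have h1 := hli.fintype_card_le_finrank
  have h2 : Fintype.card {p : Fin n × Fin n // p.1 < p.2} =
      (Finset.univ.filter fun p : Fin n × Fin n => p.1 < p.2).card :=
    Fintype.card_subtype _
  rw [h2] at h1
  have h3 := card_lt n
  omega

end Pool.Agent.TH128.KS
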